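import Pool.Agent.Y602.ES.DP
import Pool.Agent.H671R2.PolyAuto

/-!
# EDGE-STRONG is complete for parallel access to NP: definitions and statements
-/

set_option autoImplicit false

namespace Pool.Agent.Y650.TH

open Pool.Agent.NPC Pool.Agent.H622R2

/-! ### The class -/

/-- The class of languages decided in polynomial time with one round of parallel queries to a
language `O` in `NP`: `q` computes from the input `x` the list `qs` of all the queries, and `e`
decides, given `x` and the list `ans` of the answers. -/
def InTheta2 (L : Set (List Bool)) : Prop :=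
  ∃ (O : Set (List Bool)) (q e : List Bool → List Bool), InNP O ∧ PolyTime q ∧ PolyTime e ∧
    ∀ x, ∃ (qs : List (List Bool)) (ans : List Bool), q x = bits qs ∧
      List.Forall₂ (fun b y => (b = true ↔ y ∈ O)) ans qs ∧
      (x ∈ L ↔ e (bits (x, ans)) = [true])

/-- Hardness for this class under reductions computed by programs. -/
def HardTh {α : Type} [TEnc α] (P : α → Prop) : Prop :=
  ∀ L : Set (List Bool), InTheta2 L → ∃ f : List Bool → α,
    PC (fun x : List Bool => x) (bits : α → List Bool) f ∧ ∀ x, x ∈ L ↔ P (f x)

/-- Clauses with three literals. -/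
abbrev Cl := Lit × Lit × Lit

/-- Some pair consists of a satisfiable and an unsatisfiable formula. -/
def OrDP (ps : List (List Cl × List Cl)) : Prop := ∃ p ∈ ps, SAT3 p.1 ∧ ¬ SAT3 p.2

/-! ### Cubes -/

/-- A cube: a conjunction of literals (sign, variable). -/
abbrev Cube := List Lit

/-- The assignment satisfies the cube. -/
def sat (τ : ℕ → Bool) (P : Cube) : Prop := ∀ l ∈ P, τ l.2 = l.1

/-- Two cubes are in conflict. -/
def clash (P Q : Cube) : Bool :=
  P.any fun l => Q.any fun m => decide (l.2 = m.2) && !decide (l.1 = m.1)

/-! ### Instances of the covering problem -/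

/-- The name of a type. -/
abbrev Key := List ℕ

/-- An instance: a list of types with their bad cubes, and a list of sets of types. -/
abbrev Inst := List (Key × List Cube) × List (List Key)

/-- The types of the instance. -/
def keys (I : Inst) : List Key := I.1.map fun e => e.1

/-- The bad cubes of a type. -/
def bad (I : Inst) (z : Key) : List Cube := (I.1.filter fun e => decide (e.1 = z)).flatMap fun e => e.2

/-- Some disjoint sets of the list contain all types `z` for which the bad cubes do not contain all
assignments. -/
def Cover (I : Inst) : Prop := ∃ K : Set (List Key), (∀ X ∈ K, X ∈ I.2) ∧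
  (∀ X ∈ K, ∀ Y ∈ K, X ≠ Y → ∀ z ∈ X, z ∉ Y) ∧
  ∀ z ∈ keys I, (∃ X ∈ K, z ∈ X) ∨ ∀ τ : ℕ → Bool, ∃ t ∈ bad I z, sat τ t

/-- The instances which we consider: the sets are nonempty, every type is in one of them, bad cubes
have at most three literals, and the sets have the Helly property. -/
structure Good (I : Inst) : Prop where
  ne : ∀ X ∈ I.2, X ≠ []
  sub : ∀ X ∈ I.2, ∀ z ∈ X, z ∈ keys I
  cov : ∀ z ∈ keys I, ∃ X ∈ I.2, z ∈ X
  three : ∀ z ∈ keys I, ∀ t ∈ bad I z, t.length ≤ 3
  types : keys I ≠ []
  helly : ∀ F : Set (List Key), F.Nonempty → (∀ X ∈ F, X ∈ I.2) →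
    (∀ X ∈ F, ∀ Y ∈ F, ∃ z, z ∈ X ∧ z ∈ Y) → ∃ z, ∀ X ∈ F, z ∈ X

/-! ### The graph -/

/-- Labels: two marks for the kind, a list of types, a cube, a selected cube. -/
abbrev Lab := (Bool × Option Bool) × List Key × Cube × Option Cube

instance labDecEq : DecidableEq Lab :=
  @instDecidableEqProd _ _ (inferInstanceAs (DecidableEq (Bool × Option Bool)))
    (inferInstanceAs (DecidableEq (List Key × Cube × Option Cube)))

/-- The kinds of two labels have something in common. -/
def share (u v : Bool × Option Bool) : Bool := (u.1 && v.1) || (decide (u.2 = v.2) && u.2.isSome)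

/-- Both labels are in a common stable set. -/
def compat (a b : Lab) : Bool :=
  share a.1 b.1 && (a.2.1.any fun z => decide (z ∈ b.2.1)) && !(clash a.2.2.1 b.2.2.1) &&
    (!(a.2.2.2.isSome) || !(b.2.2.2.isSome) || decide (a.2.2.2 = b.2.2.2))

/-- The literals of the variables of the bad cubes of a type. -/
def litsOf (I : Inst) (z : Key) : List Lit :=
  (bad I z).flatten.flatMap fun l => [(true, l.2), (false, l.2)]

/-- The lists of at most `n` literals from a list. -/
def cubesLE (l : List Lit) : ℕ → List Cube
  | 0 => [[]]
  | n + 1 => [] :: l.flatMap fun x => (cubesLE l n).map fun P => x :: P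

/-- The consistent cubes with at most six literals. -/
def cubs (I : Inst) (z : Key) : List Cube :=
  (cubesLE (litsOf I z) 6).filter fun P => !(clash P P)

/-- The two colours. -/
def cols : List Bool := [true, false]

/-- The labels of the vertices. -/
def labs (I : Inst) : List Lab :=
  (cols.map fun c => ((false, some c), keys I, [], none)) ++
  ((I.2.map fun X => ((true, none), X, [], none)) ++
  ((keys I).flatMap fun z =>
    (cols.flatMap fun n => cols.flatMap fun c => (cubs I z).map fun P =>
      ((n, some c), [z], P, none)) ++
    ((bad I z).flatMap fun t => ((cubs I z).map fun Q => ((true, none), [z], t ++ Q, some t)).filter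
      fun a : Lab => !(clash a.2.2.1 a.2.2.1))))

/-- The adjacency matrix of the graph. -/
def graph (I : Inst) : List (List Bool) := mat (ddup (labs I)) fun a b => !(compat a b)

/-! ### The statements -/

/-- Normal form for the class. -/
def S_NF : Prop := HardTh OrDP

/-- Membership of EDGE-STRONG. -/
def S_MEM : Prop := InTheta2 (lang fun M : List (List Bool) => EdgeStrong (matGraph M))

/-- The set of vertices given by a list. -/
def vset (M : List (List Bool)) (s : List Bool) : Set (Fin M.length) := {i | s.getD i.1 false = true}

/-- The parity of the number of common elements. -/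
def par (w s : List Bool) : Bool := ((w.zip s).map fun p => p.1 && p.2).foldr xor false

/-- A triangular system: maximal stable sets `p.1` and tests `p.2`; the `i`-th test is odd on the
`i`-th set (with one more coordinate, which is one) and even on the earlier ones. -/
def Ind (M : List (List Bool)) (l : List (List Bool × List Bool)) : Prop :=
  (∀ p ∈ l, p.1.length = M.length ∧ p.2.length = M.length + 1 ∧
    Maximal (matGraph M).IsIndepSet (vset M p.1)) ∧
  ∀ i < l.length, ∀ j ≤ i,
    par (l.getD i ([], [])).2 ((l.getD j ([], [])).1 ++ [true]) = decide (j = i)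

/-- There is a triangular system of `r` maximal stable sets. -/
def CertR (M : List (List Bool)) (r : ℕ) : Prop :=
  ∃ l : List (List Bool × List Bool), l.length = r ∧ Ind M l

/-- There is such a system and every edge is in a clique which meets the sets of the system. -/
def CertE (M : List (List Bool)) (r : ℕ) : Prop :=
  ∃ l : List (List Bool × List Bool), l.length = r ∧ Ind M l ∧
    ∀ i j : Fin M.length, (matGraph M).Adj i j → ∃ K : Set (Fin M.length),
      (matGraph M).IsClique K ∧ i ∈ K ∧ j ∈ K ∧ ∀ p ∈ l, (K ∩ vset M p.1).Nonempty

/-- First part of the membership: linear algebra over the field with two elements. -/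
def S_MEM1 : Prop := (∀ M r, CertR M r → r ≤ M.length + 1) ∧
  ∀ M : List (List Bool), EdgeStrong (matGraph M) ↔
    ∃ r ≤ M.length + 1, CertE M r ∧ ¬ CertR M (r + 1)

/-- Second part of the membership. -/
def S_MEM2 : Prop := S_MEM1 → S_MEM

/-- The combinatorial reduction to the covering problem. -/
def S_INST : Prop := ∃ f : List (List Cl × List Cl) → Inst, NPC.Poly f ∧
  ∀ ps, Good (f ps) ∧ (OrDP ps ↔ Cover (f ps))

/-- The graph is computable in polynomial time. -/
def S_POLY : Prop := NPC.Poly graph

/-- The graph is correct. -/
def S_GRAPH : Prop := ∀ I : Inst, Good I → (Cover I ↔ EdgeStrong (matGraph (graph I)))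

end Pool.Agent.Y650.TH
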