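import Pool.Agent.Y650.TH.InstA

/-!
# From pairs of formulas to the covering problem: correctness and polynomial time
-/

set_option autoImplicit false

namespace Pool.Agent.Y650.TH

open Pool.Agent.NPC Pool.Agent.H622R2

theorem orDP_ext (ps : List (List Cl × List Cl)) : OrDP ps ↔ OrDP (ext ps) := by
  unfold OrDP ext
  constructor
  · rintro ⟨p, hp, h⟩
    exact ⟨p, List.mem_cons_of_mem _ hp, h⟩
  · rintro ⟨p, hp, h⟩
    rcases List.mem_cons.1 hp with rfl | hp
    · exact absurd ⟨fun _ => true, by simp⟩ h.2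
    · exact ⟨p, hp, h⟩

theorem sat_fcube {τ : ℕ → Bool} {c : Cl} : sat τ (fcube c) ↔
    ¬ (τ c.1.2 = c.1.1 ∨ τ c.2.1.2 = c.2.1.1 ∨ τ c.2.2.2 = c.2.2.1) := by
  have h : ∀ a b : Bool, a = !b ↔ ¬ a = b := by decide
  unfold fcube
  rw [sat_cons', sat_cons', sat_cons']
  simp only [neg, h]
  rw [not_or, not_or]
  constructor
  · rintro ⟨h1, h2, h3, _⟩
    exact ⟨h1, h2, h3⟩
  · rintro ⟨h1, h2, h3⟩
    exact ⟨h1, h2, h3, fun l hl => by simp at hl⟩
where
  sat_cons' {τ : ℕ → Bool} {l : Lit} {P : Cube} :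
      sat τ (l :: P) ↔ τ l.2 = l.1 ∧ sat τ P := by
    unfold sat
    simp

theorem unsat_iff (ψ : List Cl) : ¬ SAT3 ψ ↔ ∀ τ : ℕ → Bool, ∃ t ∈ ψ.map fcube, sat τ t := by
  unfold SAT3 Sat3V
  push Not
  refine forall_congr' fun τ => ?_
  constructor
  · rintro ⟨c, hc, h1, h2, h3⟩
    refine ⟨fcube c, List.mem_map.2 ⟨c, hc, rfl⟩, sat_fcube.2 ?_⟩
    rintro (h | h | h)
    · exact h1 h
    · exact h2 h
    · exact h3 h
  · rintro ⟨t, ht, h⟩
    obtain ⟨c, hc, rfl⟩ := List.mem_map.1 ht
    rw [sat_fcube] at h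
    push Not at h
    exact ⟨c, hc, h.1, h.2.1, h.2.2⟩

theorem cover_mk (ps : List (List Cl × List Cl)) : Cover (mk ps) ↔ OrDP ps := by
  classical
  rw [orDP_ext]
  constructor
  · rintro ⟨K, hK, hdis, hcov⟩
    -- the chosen mode
    have h0 : [0] ∈ keys (mk ps) := mem_keys.2 ⟨[], mem_types.2 (Or.inl ⟨rfl, rfl⟩)⟩
    have hb0 : ∀ t, t ∉ bad (mk ps) [0] := by
      intro t ht
      obtain ⟨B, hB, htB⟩ := mem_bad.1 ht
      rcases mem_types.1 hB with ⟨_, rfl⟩ | ⟨i, φ, ψ, _, ⟨h, _⟩ | ⟨h, _⟩ | ⟨_, _, h, _⟩ | ⟨h, _⟩⟩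
      · simp at htB
      · simp at h
      · simp at h
      · simp at h
      · exact absurd h (not_mem_confs (by simp))
    obtain ⟨X, hX, h0X⟩ := (hcov [0] h0).resolve_right (by
      intro h
      obtain ⟨t, ht, _⟩ := h (fun _ => true)
      exact hb0 t ht)
    obtain ⟨i, φ, ψ, hi, hXe⟩ := mem_sets.1 (hK X hX)
    have hXi : X = hS i := by
      rcases hXe with rfl | rfl | ⟨k, l, _, rfl⟩
      · rfl
      · exfalso
        have : [0] ∈ hS (i + 1) := mem_hS.2 (Or.inl rfl)
        have := hS_uS this h0X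
        omega
      · exact (hS_cS (i := 0) (mem_hS.2 (Or.inl rfl)) h0X).elim
    subst hXi
    have huK : uS i φ ∉ K := by
      intro h
      refine hdis _ hX _ h ?_ [1, i] (mem_hS.2 (Or.inr rfl)) (mem_uS.2 (Or.inl rfl))
      intro he
      have h2 : [2, i] ∈ uS i φ := mem_uS.2 (Or.inr (Or.inl rfl))
      rw [← he, mem_hS] at h2
      simp at h2
    refine ⟨(φ, ψ), List.mem_of_getElem? hi, ?_, ?_⟩
    · -- the first formula is satisfiable
      have hk : ∀ k, k < φ.length → ∃ l, (k, l) ∈ occ φ ∧ cS i φ k l ∈ K := by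
        intro k hk
        have h3 : [3, i, k] ∈ keys (mk ps) := mem_keys.2 ⟨[], mem_types.2 (Or.inr ⟨i, φ, ψ, hi,
          Or.inr (Or.inr (Or.inl ⟨k, hk, rfl, rfl⟩))⟩)⟩
        obtain ⟨Y, hY, h3Y⟩ := (hcov _ h3).resolve_right (by
          intro h
          obtain ⟨t, ht, _⟩ := h (fun _ => true)
          obtain ⟨B, hB, htB⟩ := mem_bad.1 ht
          rcases mem_types.1 hB with ⟨h, _⟩ | ⟨i, φ, ψ, _, ⟨h, _⟩ | ⟨h, _⟩ | ⟨_, _, _, rfl⟩ | ⟨h, _⟩⟩
          · simp at h
          · simp at h
          · simp at h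
          · simp at htB
          · exact absurd h (not_mem_confs (by simp)))
        obtain ⟨i', φ', ψ', hi', rfl | rfl | ⟨k', l', hkl', rfl⟩⟩ := mem_sets.1 (hK Y hY)
        · rw [mem_hS] at h3Y
          simp at h3Y
        · have h4 := uS_snd h3Y
          simp only [List.getD_cons_succ, List.getD_cons_zero] at h4
          subst h4
          rw [hi] at hi'
          simp only [Option.some.injEq, Prod.mk.injEq] at hi'
          rw [← hi'.1] at hY
          exact absurd hY huK
        · have h4 := cS_snd h3Y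
          simp only [List.getD_cons_succ, List.getD_cons_zero] at h4
          subst h4
          rw [hi] at hi'
          simp only [Option.some.injEq, Prod.mk.injEq] at hi'
          rw [← hi'.1] at hY h3Y hkl'
          rw [mem_cS] at h3Y
          have hkk : k = k' := by
            rcases h3Y with h | ⟨_, _, h | h⟩
            · simpa using h
            · simp [kD] at h
            · simp [kD] at h
          subst hkk
          exact ⟨l', hkl', hY⟩
      choose L hL hLK using hk
      set τ : ℕ → Bool := fun v => decide (∃ k, ∃ h : k < φ.length, L k h = (true, v)) with hτ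
      have hτL : ∀ k (h : k < φ.length), τ (L k h).2 = (L k h).1 := by
        intro k h
        rcases hl : L k h with ⟨b, v⟩
        cases b with
        | true => exact decide_eq_true ⟨k, h, hl⟩
        | false =>
          refine decide_eq_false ?_
          rintro ⟨k', h', hl'⟩
          have hkk : k ≠ k' := by
            rintro rfl
            rw [hl] at hl'
            simp at hl'
          refine hdis _ (hLK k h) _ (hLK k' h') ?_ (kD i k k' (false, v)) ?_ ?_
          · intro he
            have h5 : [3, i, k] ∈ cS i φ k (L k h) := mem_cS.2 (Or.inl rfl)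
            rw [he, mem_cS] at h5
            rcases h5 with h5 | ⟨_, _, h5 | h5⟩
            · simp only [List.cons.injEq, and_true, true_and] at h5
              exact hkk h5
            · simp [kD] at h5
            · simp [kD] at h5
          · rw [hl]
            have := hL k' h'
            rw [hl'] at this
            exact mem_cS.2 (Or.inr ⟨k', this, Or.inl rfl⟩)
          · rw [hl']
            have := hL k h
            rw [hl] at this
            exact mem_cS.2 (Or.inr ⟨k, this, Or.inr rfl⟩)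
      refine ⟨τ, fun c hc => ?_⟩
      obtain ⟨k, hk, rfl⟩ := List.getElem_of_mem hc
      obtain ⟨c, hc', h⟩ := mem_occ.1 (hL k hk)
      rw [List.getElem?_eq_getElem hk, Option.some.injEq] at hc'
      subst hc'
      have h1 := hτL k hk
      rcases h with h | h | h
      · rw [h] at h1
        exact Or.inl h1
      · rw [h] at h1
        exact Or.inr (Or.inl h1)
      · rw [h] at h1
        exact Or.inr (Or.inr h1)
    · -- the second formula is unsatisfiable
      rw [unsat_iff]
      have h2 : [2, i] ∈ keys (mk ps) := mem_keys.2 ⟨_, mem_types.2 (Or.inr ⟨i, φ, ψ, hi,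
          Or.inr (Or.inl ⟨rfl, rfl⟩)⟩)⟩
      have h3 := (hcov _ h2).resolve_left (by
        rintro ⟨Y, hY, h3Y⟩
        obtain ⟨i', φ', ψ', hi', rfl | rfl | ⟨k', l', hkl', rfl⟩⟩ := mem_sets.1 (hK Y hY)
        · rw [mem_hS] at h3Y
          simp at h3Y
        · have h4 := uS_snd h3Y
          simp only [List.getD_cons_succ, List.getD_cons_zero] at h4
          subst h4
          rw [hi] at hi'
          simp only [Option.some.injEq, Prod.mk.injEq] at hi'
          rw [← hi'.1] at hY
          exact absurd hY huK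
        · rw [mem_cS] at h3Y
          rcases h3Y with h | ⟨_, _, h | h⟩
          · simp at h
          · simp [kD] at h
          · simp [kD] at h)
      intro τ
      obtain ⟨t, ht, hst⟩ := h3 τ
      refine ⟨t, ?_, hst⟩
      obtain ⟨B, hB, htB⟩ := mem_bad.1 ht
      rcases mem_types.1 hB with ⟨h, _⟩ | ⟨i', φ', ψ', hi', ⟨h, _⟩ | ⟨h, h'⟩ | ⟨_, _, h, _⟩ | ⟨h, _⟩⟩
      · simp at h
      · simp at h
      · simp only [List.cons.injEq, and_true, true_and] at h
        subst h
        rw [hi] at hi'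
        simp only [Option.some.injEq, Prod.mk.injEq] at hi'
        rw [h', ← hi'.2] at htB
        exact htB
      · simp at h
      · exact absurd h (not_mem_confs (by simp))
  · rintro ⟨⟨φ, ψ⟩, hp, ⟨τ, hτ⟩, hun⟩
    obtain ⟨i, hi⟩ := List.mem_iff_getElem?.1 hp
    -- the true literals
    have hL : ∀ k, k < φ.length → ∃ l, (k, l) ∈ occ φ ∧ τ l.2 = l.1 := by
      intro k hk
      rcases hτ _ (List.getElem_mem hk) with h | h | h
      · exact ⟨_, mem_occ.2 ⟨_, List.getElem?_eq_getElem hk, Or.inl rfl⟩, h⟩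
      · exact ⟨_, mem_occ.2 ⟨_, List.getElem?_eq_getElem hk, Or.inr (Or.inl rfl)⟩, h⟩
      · exact ⟨_, mem_occ.2 ⟨_, List.getElem?_eq_getElem hk, Or.inr (Or.inr rfl)⟩, h⟩
    choose L hL hLτ using hL
    refine ⟨{X | X = hS i ∨ (∃ j φ' ψ', (ext ps)[j]? = some (φ', ψ') ∧ j ≠ i ∧ X = uS j φ') ∨
      ∃ k, ∃ h : k < φ.length, X = cS i φ k (L k h)}, ?_, ?_, ?_⟩
    · rintro X (rfl | ⟨j, φ', ψ', hj, _, rfl⟩ | ⟨k, h, rfl⟩)
      · exact mem_sets.2 ⟨i, φ, ψ, hi, Or.inl rfl⟩
      · exact mem_sets.2 ⟨j, φ', ψ', hj, Or.inr (Or.inl rfl)⟩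
      · exact mem_sets.2 ⟨i, φ, ψ, hi, Or.inr (Or.inr ⟨k, _, hL k h, rfl⟩)⟩
    · rintro X (rfl | ⟨j, φ', ψ', hj, hji, rfl⟩ | ⟨k, h, rfl⟩) Y
        (rfl | ⟨j', φ'', ψ'', hj', hji', rfl⟩ | ⟨k', h', rfl⟩) hXY z hz hz'
      · exact hXY rfl
      · exact hji' (hS_uS hz hz').symm
      · exact hS_cS hz hz'
      · exact hji (hS_uS hz' hz).symm
      · have h1 := uS_snd hz
        rw [uS_snd hz'] at h1
        subst h1
        rw [hj] at hj'
        simp only [Option.some.injEq, Prod.mk.injEq] at hj'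
        exact hXY (by rw [hj'.1])
      · have h1 := uS_snd hz
        rw [cS_snd hz'] at h1
        exact hji h1.symm
      · exact hS_cS hz' hz
      · have h1 := uS_snd hz'
        rw [cS_snd hz] at h1
        exact hji' h1.symm
      · have hkk : k ≠ k' := by
          rintro rfl
          exact hXY rfl
        have h1 := cS_cS hkk hz hz'
        have h2 := hLτ k h
        have h3 := hLτ k' h'
        rw [h1] at h3
        simp only [neg] at h3
        rw [h2] at h3
        simp at h3
    · intro z hz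
      obtain ⟨B, hB⟩ := mem_keys.1 hz
      rcases mem_types.1 hB with ⟨rfl, _⟩ | ⟨j, φ', ψ', hj, h⟩
      · exact Or.inl ⟨hS i, Or.inl rfl, mem_hS.2 (Or.inl rfl)⟩
      · by_cases hji : j = i
        · subst hji
          rw [hi] at hj
          simp only [Option.some.injEq, Prod.mk.injEq] at hj
          obtain ⟨rfl, rfl⟩ := hj
          rcases h with ⟨rfl, _⟩ | ⟨rfl, rfl⟩ | ⟨k, hk, rfl, _⟩ | ⟨h, rfl⟩
          · exact Or.inl ⟨hS j, Or.inl rfl, mem_hS.2 (Or.inr rfl)⟩
          · right
            intro τ'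
            obtain ⟨t, ht, h⟩ := (unsat_iff ψ).1 hun τ'
            exact ⟨t, mem_bad.2 ⟨_, hB, ht⟩, h⟩
          · exact Or.inl ⟨_, Or.inr (Or.inr ⟨k, hk, rfl⟩), mem_cS.2 (Or.inl rfl)⟩
          · right
            intro τ'
            refine ⟨[], mem_bad.2 ⟨_, hB, by simp⟩, fun l hl => by simp at hl⟩
        · refine Or.inl ⟨uS j φ', Or.inr (Or.inl ⟨j, φ', ψ', hj, hji, rfl⟩), mem_uS.2 ?_⟩
          rcases h with ⟨h, _⟩ | ⟨h, _⟩ | ⟨k, hk, h, _⟩ | ⟨h, _⟩
          · exact Or.inl h
          · exact Or.inr (Or.inl h)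
          · exact Or.inr (Or.inr (Or.inl ⟨k, hk, h⟩))
          · exact Or.inr (Or.inr (Or.inr h))

/-! ### Polynomial time -/

section PolyTime

variable {α : Type} [TEnc α]

theorem poly_neg {l : α → Lit} (hl : NPC.Poly l) : NPC.Poly (fun a => neg (l a)) := by
  unfold neg
  fun_prop

attribute [local fun_prop] poly_neg

theorem poly_occ {φ : α → List Cl} (hφ : NPC.Poly φ) : NPC.Poly (fun a => occ (φ a)) := by
  unfold occ
  fun_prop

attribute [local fun_prop] poly_occ

theorem poly_toNat {b : α → Bool} (hb : NPC.Poly b) : NPC.Poly (fun a => (b a).toNat) := by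
  refine (NPC.Poly.cond (f := fun _ => 1) (g := fun _ => 0) hb (NPC.Poly.const _)
    (NPC.Poly.const _)).congr fun a => ?_
  cases b a <;> rfl

attribute [local fun_prop] poly_toNat

theorem poly_kD {i k k' : α → ℕ} {l : α → Lit} (hi : NPC.Poly i) (hk : NPC.Poly k)
    (hk' : NPC.Poly k') (hl : NPC.Poly l) : NPC.Poly (fun a => kD (i a) (k a) (k' a) (l a)) := by
  unfold kD
  fun_prop

attribute [local fun_prop] poly_kD

theorem poly_confs {i : α → ℕ} {φ : α → List Cl} (hi : NPC.Poly i) (hφ : NPC.Poly φ) :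
    NPC.Poly (fun a => confs (i a) (φ a)) := by
  unfold confs
  fun_prop

attribute [local fun_prop] poly_confs

theorem poly_hS {i : α → ℕ} (hi : NPC.Poly i) : NPC.Poly (fun a => hS (i a)) := by
  unfold hS
  fun_prop

theorem poly_uS {i : α → ℕ} {φ : α → List Cl} (hi : NPC.Poly i) (hφ : NPC.Poly φ) :
    NPC.Poly (fun a => uS (i a) (φ a)) := by
  unfold uS
  fun_prop

theorem poly_cS {i k : α → ℕ} {l : α → Lit} {φ : α → List Cl} (hi : NPC.Poly i)
    (hφ : NPC.Poly φ) (hk : NPC.Poly k) (hl : NPC.Poly l) :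
    NPC.Poly (fun a => cS (i a) (φ a) (k a) (l a)) := by
  unfold cS
  fun_prop

theorem poly_fcube {c : α → Cl} (hc : NPC.Poly c) : NPC.Poly (fun a => fcube (c a)) := by
  unfold fcube
  fun_prop

attribute [local fun_prop] poly_hS poly_uS poly_cS poly_fcube

theorem poly_tys {i : α → ℕ} {p : α → List Cl × List Cl} (hi : NPC.Poly i) (hp : NPC.Poly p) :
    NPC.Poly (fun a => tys (i a) (p a)) := by
  unfold tys
  fun_prop

theorem poly_sps {i : α → ℕ} {p : α → List Cl × List Cl} (hi : NPC.Poly i) (hp : NPC.Poly p) :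
    NPC.Poly (fun a => sps (i a) (p a)) := by
  unfold sps
  fun_prop

attribute [local fun_prop] poly_tys poly_sps

theorem poly_mk : NPC.Poly mk := by
  unfold mk ext
  fun_prop

end PolyTime

theorem inst : S_INST := ⟨mk, poly_mk, fun ps => ⟨good_mk ps, (cover_mk ps).symm⟩⟩

end Pool.Agent.Y650.TH
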