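import Pool.Agent.Y650.TH.Defs

/-!
# The graph is computable in polynomial time
-/

set_option autoImplicit false

namespace Pool.Agent.Y650.TH

open Pool.Agent.NPC Pool.Agent.H622R2

variable {α : Type} [TEnc α]

theorem poly_bad {I : α → Inst} {z : α → Key} (hI : NPC.Poly I) (hz : NPC.Poly z) :
    NPC.Poly (fun a => bad (I a) (z a)) := by
  unfold bad
  fun_prop

attribute [local fun_prop] poly_bad

theorem poly_keys {I : α → Inst} (hI : NPC.Poly I) : NPC.Poly (fun a => keys (I a)) := by
  unfold keys
  fun_prop

attribute [local fun_prop] poly_keys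

theorem poly_clash {P Q : α → Cube} (hP : NPC.Poly P) (hQ : NPC.Poly Q) :
    NPC.Poly (fun a => clash (P a) (Q a)) := by
  unfold clash
  fun_prop

attribute [local fun_prop] poly_clash

theorem poly_litsOf {I : α → Inst} {z : α → Key} (hI : NPC.Poly I) (hz : NPC.Poly z) :
    NPC.Poly (fun a => litsOf (I a) (z a)) := by
  unfold litsOf
  fun_prop

attribute [local fun_prop] poly_litsOf

theorem poly_cubesLE (n : ℕ) : ∀ {α : Type} [TEnc α] {l : α → List Lit}, NPC.Poly l →
    NPC.Poly (fun a => cubesLE (l a) n) := by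
  induction n with
  | zero =>
    intro α _ l hl
    exact NPC.Poly.const _
  | succ n ih =>
    intro α _ l hl
    have h1 : NPC.Poly (fun p : α × Lit => (cubesLE (l p.1) n).map fun P => p.2 :: P) := by
      refine NPC.Poly.map (F := fun (p : α × Lit) P => p.2 :: P) (ih (hl.comp (NPC.Poly.fst NPC.Poly.id))) ?_
      fun_prop
    exact NPC.Poly.cons (NPC.Poly.const _) (NPC.Poly.flatMap
      (F := fun (a : α) x => (cubesLE (l a) n).map fun P => x :: P) hl h1)

theorem poly_cubs {I : α → Inst} {z : α → Key} (hI : NPC.Poly I) (hz : NPC.Poly z) :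
    NPC.Poly (fun a => cubs (I a) (z a)) := by
  unfold cubs
  refine NPC.Poly.filter (p := fun (_ : α) P => !(clash P P)) (poly_cubesLE 6 (poly_litsOf hI hz)) ?_
  fun_prop

attribute [local fun_prop] poly_cubs

theorem poly_isSome {β : Type} [TEnc β] {o : α → Option β} (ho : NPC.Poly o) :
    NPC.Poly (fun a => (o a).isSome) := NPC.Poly.isSome ho

attribute [local fun_prop] poly_isSome

theorem poly_share {u v : α → Bool × Option Bool} (hu : NPC.Poly u) (hv : NPC.Poly v) :
    NPC.Poly (fun a => share (u a) (v a)) := by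
  unfold share
  fun_prop

attribute [local fun_prop] poly_share

theorem poly_compat {u v : α → Lab} (hu : NPC.Poly u) (hv : NPC.Poly v) :
    NPC.Poly (fun a => compat (u a) (v a)) := by
  unfold compat
  fun_prop

theorem poly_labs : NPC.Poly labs := by
  unfold labs cols
  simp only [List.map_cons, List.map_nil, List.flatMap_cons, List.flatMap_nil]
  fun_prop

theorem poly_graph : S_POLY := by
  unfold S_POLY graph
  refine mat_poly (adj := fun (_ : Inst) a b => !(compat a b)) (ddup_poly poly_labs) ?_
  exact NPC.Poly.not (poly_compat (NPC.Poly.snd (NPC.Poly.fst NPC.Poly.id)) (NPC.Poly.snd NPC.Poly.id))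

end Pool.Agent.Y650.TH
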