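import Pool.Agent.Y650.TH.G4
import Pool.Agent.Y650.TH.PolyG
import Pool.Agent.Y650.TH.InstB
import Pool.Agent.Y672.TH.Mem1
import Pool.Agent.Y528.TH.Mem2
import Pool.Agent.Y620.TH.NF

/-!
# EDGE-STRONG is complete for parallel access to NP
-/

set_option autoImplicit false

namespace Pool.Agent.Y650.TH

open Pool.Agent.NPC Pool.Agent.H622R2

theorem HardTh.trans {α β : Type} [TEnc α] [TEnc β] {P : α → Prop} {Q : β → Prop} (hP : HardTh P)
    {f : α → β} (hf : NPC.Poly f) (h : ∀ a, P a ↔ Q (f a)) : HardTh Q := by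
  intro L hL
  obtain ⟨g, hg, hgL⟩ := hP L hL
  exact ⟨fun x => f (g x), PC.comp hf hg, fun x => (hgL x).trans (h _)⟩

theorem HardTh.reduces {α : Type} [TEnc α] {P : α → Prop} (hP : HardTh P) {L : Set (List Bool)}
    (hL : InTheta2 L) : Reduces L (lang P) := by
  obtain ⟨f, hf, hfL⟩ := hP L hL
  refine ⟨fun x => bits (f x), PC.toPolyTime hf, fun x => ?_⟩
  rw [hfL x, bits_mem_lang]

theorem hardTh_edgeStrong : HardTh (fun M : List (List Bool) => EdgeStrong (matGraph M)) := by
  obtain ⟨f, hf, h⟩ := inst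
  refine HardTh.trans (P := OrDP) Pool.Agent.Y620.TH.nf (f := fun ps => graph (f ps))
    (NPC.Poly.comp (g := graph) poly_graph hf) fun ps => ?_
  exact (h ps).2.trans (graph_correct (f ps) (h ps).1)

theorem mem_edgeStrong : S_MEM := Pool.Agent.Y528.TH.mem2 Pool.Agent.Y672.TH.mem1

end Pool.Agent.Y650.TH
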