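import Pool.Agent.Y650.TH.Defs

/-!
# Labels, states and strong cliques
-/

set_option autoImplicit false

namespace Pool.Agent.Y650.TH

open Pool.Agent.NPC Pool.Agent.H622R2

/-! ### Cubes -/

theorem clash_iff (P Q : Cube) :
    clash P Q = true ↔ ∃ l ∈ P, ∃ m ∈ Q, l.2 = m.2 ∧ l.1 ≠ m.1 := by
  simp [clash]

theorem clash_false_iff (P Q : Cube) :
    clash P Q = false ↔ ∀ l ∈ P, ∀ m ∈ Q, l.2 = m.2 → l.1 = m.1 := by
  rw [← Bool.not_eq_true, clash_iff]
  push Not
  rfl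

theorem not_clash_of_sat {τ : ℕ → Bool} {P Q : Cube} (hP : sat τ P) (hQ : sat τ Q) :
    clash P Q = false := by
  rw [clash_false_iff]
  intro l hl m hm h
  rw [← hP l hl, ← hQ m hm, h]

theorem sat_append {τ : ℕ → Bool} {P Q : Cube} : sat τ (P ++ Q) ↔ sat τ P ∧ sat τ Q := by
  unfold sat
  constructor
  · intro h
    exact ⟨fun l hl => h l (List.mem_append_left _ hl), fun l hl => h l (List.mem_append_right _ hl)⟩
  · rintro ⟨h1, h2⟩ l hl
    rcases List.mem_append.1 hl with h | h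
    · exact h1 l h
    · exact h2 l h

theorem sat_cons {τ : ℕ → Bool} {l : Lit} {P : Cube} :
    sat τ (l :: P) ↔ τ l.2 = l.1 ∧ sat τ P := by
  unfold sat
  simp

theorem sat_nil {τ : ℕ → Bool} : sat τ [] := by
  intro l hl
  simp at hl

theorem mem_cubesLE {l : List Lit} : ∀ {n : ℕ} {P : Cube},
    P ∈ cubesLE l n ↔ P.length ≤ n ∧ ∀ x ∈ P, x ∈ l
  | 0, P => by
    unfold cubesLE
    constructor
    · intro h
      rw [List.mem_singleton] at h
      subst h
      simp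
    · rintro ⟨h, _⟩
      have : P = [] := List.length_eq_zero_iff.1 (by omega)
      subst this
      simp
  | n + 1, P => by
    unfold cubesLE
    rw [List.mem_cons, List.mem_flatMap]
    constructor
    · rintro (rfl | ⟨x, hx, h⟩)
      · simp
      · obtain ⟨Q, hQ, rfl⟩ := List.mem_map.1 h
        rw [mem_cubesLE] at hQ
        refine ⟨by simpa using hQ.1, ?_⟩
        intro y hy
        rcases List.mem_cons.1 hy with rfl | hy
        · exact hx
        · exact hQ.2 y hy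
    · rintro ⟨h1, h2⟩
      cases P with
      | nil => exact Or.inl rfl
      | cons x Q =>
        right
        refine ⟨x, h2 x (by simp), List.mem_map.2 ⟨Q, ?_, rfl⟩⟩
        rw [mem_cubesLE]
        exact ⟨by simpa using h1, fun y hy => h2 y (by simp [hy])⟩

theorem mem_litsOf {I : Inst} {z : Key} {x : Lit} :
    x ∈ litsOf I z ↔ ∃ t ∈ bad I z, ∃ l ∈ t, l.2 = x.2 := by
  unfold litsOf
  simp only [List.mem_flatMap, List.mem_flatten, List.mem_cons, List.not_mem_nil, or_false]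
  constructor
  · rintro ⟨l, ⟨t, ht, hl⟩, h | h⟩
    · exact ⟨t, ht, l, hl, by rw [h]⟩
    · exact ⟨t, ht, l, hl, by rw [h]⟩
  · rintro ⟨t, ht, l, hl, h⟩
    refine ⟨l, ⟨t, ht, hl⟩, ?_⟩
    obtain ⟨b, v⟩ := x
    subst h
    cases b <;> simp

theorem mem_cubs {I : Inst} {z : Key} {P : Cube} :
    P ∈ cubs I z ↔ (P.length ≤ 6 ∧ ∀ x ∈ P, x ∈ litsOf I z) ∧ clash P P = false := by
  unfold cubs
  rw [List.mem_filter, mem_cubesLE, Bool.not_eq_true']

theorem nil_mem_cubs {I : Inst} {z : Key} : [] ∈ cubs I z := by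
  rw [mem_cubs]
  simp [clash]

/-! ### Labels -/

/-- The label of a colour. -/
def glob (I : Inst) (c : Bool) : Lab := ((false, some c), keys I, [], none)

/-- The label of a set of types. -/
def spec (X : List Key) : Lab := ((true, none), X, [], none)

/-- The local labels with a colour. -/
def loc (n c : Bool) (z : Key) (P : Cube) : Lab := ((n, some c), [z], P, none)

/-- The local labels with a bad cube. -/
def nl (z : Key) (t Q : Cube) : Lab := ((true, none), [z], t ++ Q, some t)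

theorem mem_labs {I : Inst} {a : Lab} : a ∈ labs I ↔ (∃ c, a = glob I c) ∨
    (∃ X ∈ I.2, a = spec X) ∨ (∃ z ∈ keys I, ∃ n c, ∃ P ∈ cubs I z, a = loc n c z P) ∨
    (∃ z ∈ keys I, ∃ t ∈ bad I z, ∃ Q ∈ cubs I z, clash (t ++ Q) (t ++ Q) = false ∧
      a = nl z t Q) := by
  unfold labs
  rw [List.mem_append, List.mem_append, List.mem_map, List.mem_map, List.mem_flatMap]
  refine or_congr ?_ (or_congr ?_ ?_)
  · constructor
    · rintro ⟨c, _, rfl⟩
      exact ⟨c, rfl⟩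
    · rintro ⟨c, rfl⟩
      exact ⟨c, by cases c <;> simp [cols], rfl⟩
  · constructor
    · rintro ⟨X, hX, rfl⟩
      exact ⟨X, hX, rfl⟩
    · rintro ⟨X, hX, rfl⟩
      exact ⟨X, hX, rfl⟩
  · constructor
    · rintro ⟨z, hz, h⟩
      rcases List.mem_append.1 h with h | h
      · left
        obtain ⟨n, _, h⟩ := List.mem_flatMap.1 h
        obtain ⟨c, _, h⟩ := List.mem_flatMap.1 h
        obtain ⟨P, hP, rfl⟩ := List.mem_map.1 h
        exact ⟨z, hz, n, c, P, hP, rfl⟩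
      · right
        obtain ⟨t, ht, h⟩ := List.mem_flatMap.1 h
        obtain ⟨h, h'⟩ := List.mem_filter.1 h
        obtain ⟨Q, hQ, rfl⟩ := List.mem_map.1 h
        exact ⟨z, hz, t, ht, Q, hQ, by simpa using h', rfl⟩
    · rintro (⟨z, hz, n, c, P, hP, rfl⟩ | ⟨z, hz, t, ht, Q, hQ, h, rfl⟩)
      · refine ⟨z, hz, List.mem_append_left _ ?_⟩
        refine List.mem_flatMap.2 ⟨n, by cases n <;> simp [cols], ?_⟩
        refine List.mem_flatMap.2 ⟨c, by cases c <;> simp [cols], ?_⟩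
        exact List.mem_map.2 ⟨P, hP, rfl⟩
      · refine ⟨z, hz, List.mem_append_right _ ?_⟩
        refine List.mem_flatMap.2 ⟨t, ht, ?_⟩
        refine List.mem_filter.2 ⟨List.mem_map.2 ⟨Q, hQ, rfl⟩, ?_⟩
        show (!(clash (t ++ Q) (t ++ Q))) = true
        rw [h]
        rfl

theorem glob_mem {I : Inst} (c : Bool) : glob I c ∈ labs I := mem_labs.2 (Or.inl ⟨c, rfl⟩)

theorem spec_mem {I : Inst} {X : List Key} (hX : X ∈ I.2) : spec X ∈ labs I :=
  mem_labs.2 (Or.inr (Or.inl ⟨X, hX, rfl⟩))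

theorem loc_mem {I : Inst} {n c : Bool} {z : Key} {P : Cube} (hz : z ∈ keys I)
    (hP : P ∈ cubs I z) : loc n c z P ∈ labs I :=
  mem_labs.2 (Or.inr (Or.inr (Or.inl ⟨z, hz, n, c, P, hP, rfl⟩)))

theorem nl_mem {I : Inst} {z : Key} {t Q : Cube} (hz : z ∈ keys I) (ht : t ∈ bad I z)
    (hQ : Q ∈ cubs I z) (h : clash (t ++ Q) (t ++ Q) = false) : nl z t Q ∈ labs I :=
  mem_labs.2 (Or.inr (Or.inr (Or.inr ⟨z, hz, t, ht, Q, hQ, h, rfl⟩)))

/-! ### States -/

/-- A state: a kind (`none` or a colour), a type, an assignment, a selected cube. -/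
structure St where
  k : Option Bool
  z : Key
  τ : ℕ → Bool
  s : Option Cube

/-- The allowed states. -/
def St.Ok (I : Inst) (σ : St) : Prop := σ.z ∈ keys I ∧ (σ.k = none →
  (σ.s = none ∧ ∀ t ∈ bad I σ.z, ¬ sat σ.τ t) ∨ ∃ t ∈ bad I σ.z, σ.s = some t ∧ sat σ.τ t)

/-- The label has the kind. -/
def Kd (u : Bool × Option Bool) (k : Option Bool) : Prop :=
  (k = none ∧ u.1 = true) ∨ ∃ c, k = some c ∧ u.2 = some c

/-- The label covers the state. -/
def cv (a : Lab) (σ : St) : Prop :=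
  Kd a.1 σ.k ∧ σ.z ∈ a.2.1 ∧ sat σ.τ a.2.2.1 ∧ ∀ t, a.2.2.2 = some t → σ.s = some t

theorem share_iff (u v : Bool × Option Bool) : share u v = true ↔ ∃ k, Kd u k ∧ Kd v k := by
  obtain ⟨u1, u2⟩ := u
  obtain ⟨v1, v2⟩ := v
  unfold share Kd
  simp only [Bool.or_eq_true, Bool.and_eq_true, decide_eq_true_eq]
  constructor
  · rintro (⟨h1, h2⟩ | ⟨h1, h2⟩)
    · exact ⟨none, Or.inl ⟨rfl, h1⟩, Or.inl ⟨rfl, h2⟩⟩
    · obtain ⟨c, hc⟩ := Option.isSome_iff_exists.1 h2
      exact ⟨some c, Or.inr ⟨c, rfl, hc⟩, Or.inr ⟨c, rfl, by rw [← h1, hc]⟩⟩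
  · rintro ⟨k, h1, h2⟩
    rcases h1 with ⟨rfl, h1⟩ | ⟨c, rfl, h1⟩
    · rcases h2 with ⟨_, h2⟩ | ⟨c, h, _⟩
      · exact Or.inl ⟨h1, h2⟩
      · simp at h
    · rcases h2 with ⟨h, _⟩ | ⟨c', h, h2⟩
      · simp at h
      · right
        rw [h1, h2]
        simp only [Option.some.injEq] at h
        subst h
        simp

theorem compat_iff (a b : Lab) : compat a b = true ↔ (∃ k, Kd a.1 k ∧ Kd b.1 k) ∧
    (∃ z ∈ a.2.1, z ∈ b.2.1) ∧ clash a.2.2.1 b.2.2.1 = false ∧
    (∀ t t', a.2.2.2 = some t → b.2.2.2 = some t' → t = t') := by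
  unfold compat
  rw [Bool.and_eq_true, Bool.and_eq_true, Bool.and_eq_true, share_iff, and_assoc, and_assoc]
  refine and_congr_right fun _ => and_congr ?_ (and_congr ?_ ?_)
  · simp
  · rw [Bool.not_eq_true']
  · rcases a.2.2.2 with _ | t <;> rcases b.2.2.2 with _ | t' <;> simp

theorem compat_comm (a b : Lab) : compat a b = compat b a := by
  rw [Bool.eq_iff_iff, compat_iff, compat_iff]
  have : ∀ a b : Lab, ((∃ k, Kd a.1 k ∧ Kd b.1 k) ∧
    (∃ z ∈ a.2.1, z ∈ b.2.1) ∧ clash a.2.2.1 b.2.2.1 = false ∧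
    (∀ t t', a.2.2.2 = some t → b.2.2.2 = some t' → t = t')) →
    ((∃ k, Kd b.1 k ∧ Kd a.1 k) ∧
    (∃ z ∈ b.2.1, z ∈ a.2.1) ∧ clash b.2.2.1 a.2.2.1 = false ∧
    (∀ t t', b.2.2.2 = some t → a.2.2.2 = some t' → t = t')) := by
    rintro a b ⟨⟨k, h1, h2⟩, ⟨z, h3, h4⟩, h5, h6⟩
    refine ⟨⟨k, h2, h1⟩, ⟨z, h4, h3⟩, ?_, fun t t' h h' => (h6 t' t h' h).symm⟩
    rw [clash_false_iff] at h5 ⊢
    exact fun l hl m hm h => (h5 m hm l hl h.symm).symm
  exact ⟨this a b, this b a⟩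

theorem compat_of_cv {a b : Lab} {σ : St} (ha : cv a σ) (hb : cv b σ) : compat a b = true := by
  rw [compat_iff]
  refine ⟨⟨_, ha.1, hb.1⟩, ⟨_, ha.2.1, hb.2.1⟩, not_clash_of_sat ha.2.2.1 hb.2.2.1, ?_⟩
  intro t t' h h'
  have h1 := ha.2.2.2 t h
  have h2 := hb.2.2.2 t' h'
  rw [h1] at h2
  exact Option.some.inj h2

theorem clash_self {I : Inst} {a : Lab} (ha : a ∈ labs I) : clash a.2.2.1 a.2.2.1 = false := by
  rcases mem_labs.1 ha with ⟨c, rfl⟩ | ⟨X, _, rfl⟩ | ⟨z, _, n, c, P, hP, rfl⟩ |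
    ⟨z, _, t, _, Q, _, h, rfl⟩
  · simp [glob, clash]
  · simp [spec, clash]
  · exact (mem_cubs.1 hP).2
  · exact h

/-- Pairwise compatible labels cover a common state. -/
theorem common {I : Inst} (hI : Good I) (S : Set Lab) (hS : ∀ a ∈ S, a ∈ labs I)
    (hc : ∀ a ∈ S, ∀ b ∈ S, compat a b = true) : ∃ σ : St, σ.Ok I ∧ ∀ a ∈ S, cv a σ := by
  classical
  -- the kind
  obtain ⟨k, hk⟩ : ∃ k, ∀ a ∈ S, Kd a.1 k := by
    by_cases h : ∃ a ∈ S, a.1.1 = false
    · obtain ⟨a, ha, h⟩ := h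
      obtain ⟨⟨k, h1, _⟩, _⟩ := (compat_iff a a).1 (hc a ha a ha)
      rcases h1 with ⟨_, h1⟩ | ⟨c, rfl, h1⟩
      · rw [h] at h1; simp at h1
      · refine ⟨some c, fun b hb => ?_⟩
        obtain ⟨⟨k, h2, h3⟩, _⟩ := (compat_iff a b).1 (hc a ha b hb)
        rcases h2 with ⟨_, h2⟩ | ⟨c', rfl, h2⟩
        · rw [h] at h2; simp at h2
        · rw [h1] at h2
          rw [Option.some.inj h2]
          exact h3
    · push Not at h
      exact ⟨none, fun a ha => Or.inl ⟨rfl, by simpa using h a ha⟩⟩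
  -- the type
  obtain ⟨z, hz, hzS⟩ : ∃ z ∈ keys I, ∀ a ∈ S, z ∈ a.2.1 := by
    by_cases h : ∃ a ∈ S, ∃ z ∈ keys I, a.2.1 = [z]
    · obtain ⟨a, ha, z, hz, h⟩ := h
      refine ⟨z, hz, fun b hb => ?_⟩
      obtain ⟨_, ⟨z', h1, h2⟩, _⟩ := (compat_iff a b).1 (hc a ha b hb)
      rw [h, List.mem_singleton] at h1
      rw [← h1]
      exact h2
    · push Not at h
      have h' : ∀ a ∈ S, (∃ c, a = glob I c) ∨ ∃ X ∈ I.2, a = spec X := by
        intro a ha
        rcases mem_labs.1 (hS a ha) with h1 | h1 | ⟨z, hz, n, c, P, hP, rfl⟩ |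
          ⟨z, hz, t, _, Q, _, _, rfl⟩
        · exact Or.inl h1
        · exact Or.inr h1
        · exact absurd rfl (h _ ha z hz)
        · exact absurd rfl (h _ ha z hz)
      by_cases hF : ∃ X, X ∈ I.2 ∧ spec X ∈ S
      · obtain ⟨z, hz⟩ := hI.helly {X | X ∈ I.2 ∧ spec X ∈ S} hF (fun X hX => hX.1) (by
          intro X hX Y hY
          obtain ⟨_, ⟨z, h1, h2⟩, _⟩ := (compat_iff _ _).1 (hc _ hX.2 _ hY.2)
          exact ⟨z, h1, h2⟩)
        obtain ⟨X, hX⟩ := hF
        have hzk := hI.sub X hX.1 z (hz X hX)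
        refine ⟨z, hzk, fun a ha => ?_⟩
        rcases h' a ha with ⟨c, rfl⟩ | ⟨Y, hY, rfl⟩
        · exact hzk
        · exact hz Y ⟨hY, ha⟩
      · obtain ⟨z, hz⟩ := List.exists_mem_of_ne_nil _ hI.types
        refine ⟨z, hz, fun a ha => ?_⟩
        rcases h' a ha with ⟨c, rfl⟩ | ⟨Y, hY, rfl⟩
        · exact hz
        · exact absurd ⟨Y, hY, ha⟩ hF
  -- the assignment
  set τ : ℕ → Bool := fun x => decide (∃ a ∈ S, (true, x) ∈ a.2.2.1) with hτ
  have hsat : ∀ a ∈ S, sat τ a.2.2.1 := by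
    rintro a ha ⟨b, x⟩ hl
    cases b with
    | true =>
      exact decide_eq_true ⟨a, ha, hl⟩
    | false =>
      rw [hτ]
      simp only [decide_eq_false_iff_not, not_exists, not_and]
      intro a' ha' hl'
      have h1 := ((compat_iff a a').1 (hc a ha a' ha')).2.2.1
      rw [clash_false_iff] at h1
      have := h1 _ hl _ hl' rfl
      simp at this
  -- the selected cube
  obtain ⟨s, hs1, hs2⟩ : ∃ s : Option Cube, (k = none → (s = none ∧ ∀ t ∈ bad I z, ¬ sat τ t) ∨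
      ∃ t ∈ bad I z, s = some t ∧ sat τ t) ∧ ∀ a ∈ S, ∀ t, a.2.2.2 = some t → s = some t := by
    by_cases h : ∃ a ∈ S, ∃ t, a.2.2.2 = some t
    · obtain ⟨a, ha, t, h⟩ := h
      refine ⟨some t, fun _ => Or.inr ⟨t, ?_, rfl, ?_⟩, fun b hb t' ht' => ?_⟩
      · rcases mem_labs.1 (hS a ha) with ⟨c, rfl⟩ | ⟨X, _, rfl⟩ | ⟨z, _, n, c, P, hP, rfl⟩ |
          ⟨z', _, t', ht', Q, _, _, rfl⟩
        · simp [glob] at h
        · simp [spec] at h
        · simp [loc] at h
        · have h1 := hzS _ ha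
          simp only [nl, List.mem_singleton, Option.some.injEq] at h1 h
          rw [h1, ← h]
          exact ht'
      · rcases mem_labs.1 (hS a ha) with ⟨c, rfl⟩ | ⟨X, _, rfl⟩ | ⟨z, _, n, c, P, hP, rfl⟩ |
          ⟨z', _, t', ht', Q, _, _, rfl⟩
        · simp [glob] at h
        · simp [spec] at h
        · simp [loc] at h
        · have h1 := hsat _ ha
          simp only [nl, Option.some.injEq] at h1 h
          rw [← h]
          exact (sat_append.1 h1).1
      · rw [((compat_iff a b).1 (hc a ha b hb)).2.2.2 t t' h ht']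
    · push Not at h
      by_cases h2 : ∃ t ∈ bad I z, sat τ t
      · obtain ⟨t, ht, hst⟩ := h2
        exact ⟨some t, fun _ => Or.inr ⟨t, ht, rfl, hst⟩, fun a ha t' h' => absurd h' (h a ha t')⟩
      · push Not at h2
        exact ⟨none, fun _ => Or.inl ⟨rfl, h2⟩, fun a ha t' h' => absurd h' (h a ha t')⟩
  exact ⟨⟨k, z, τ, s⟩, ⟨hz, hs1⟩, fun a ha => ⟨hk a ha, hzS a ha, hsat a ha, hs2 a ha⟩⟩

theorem compat_self {I : Inst} (hI : Good I) {a : Lab} (ha : a ∈ labs I) : compat a a = true := by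
  rw [compat_iff]
  refine ⟨?_, ?_, clash_self ha, fun t t' h h' => ?_⟩
  · rcases mem_labs.1 ha with ⟨c, rfl⟩ | ⟨X, _, rfl⟩ | ⟨z, _, n, c, P, hP, rfl⟩ |
      ⟨z, _, t, _, Q, _, h, rfl⟩
    · exact ⟨some c, Or.inr ⟨c, rfl, rfl⟩, Or.inr ⟨c, rfl, rfl⟩⟩
    · exact ⟨none, Or.inl ⟨rfl, rfl⟩, Or.inl ⟨rfl, rfl⟩⟩
    · exact ⟨some c, Or.inr ⟨c, rfl, rfl⟩, Or.inr ⟨c, rfl, rfl⟩⟩
    · exact ⟨none, Or.inl ⟨rfl, rfl⟩, Or.inl ⟨rfl, rfl⟩⟩
  · rcases mem_labs.1 ha with ⟨c, rfl⟩ | ⟨X, hX, rfl⟩ | ⟨z, _, n, c, P, hP, rfl⟩ |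
      ⟨z, _, t, _, Q, _, h, rfl⟩
    · obtain ⟨z, hz⟩ := List.exists_mem_of_ne_nil _ hI.types
      exact ⟨z, hz, hz⟩
    · obtain ⟨z, hz⟩ := List.exists_mem_of_ne_nil _ (hI.ne X hX)
      exact ⟨z, hz, hz⟩
    · exact ⟨z, by simp [loc], by simp [loc]⟩
    · exact ⟨z, by simp [nl], by simp [nl]⟩
  · rw [h] at h'
    exact Option.some.inj h'

/-! ### The graph on the labels -/

/-- The graph. -/
abbrev GG (I : Inst) : SimpleGraph {x // x ∈ ddup (labs I)} :=
  labGraph (ddup (labs I)) fun a b => !(compat a b)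

theorem GG_adj {I : Inst} (hI : Good I) (x y : {x // x ∈ ddup (labs I)}) :
    (GG I).Adj x y ↔ compat x.1 y.1 = false := by
  unfold GG labGraph
  simp only [Bool.not_eq_true']
  rw [compat_comm y.1 x.1, or_self]
  constructor
  · exact fun h => h.2
  · intro h
    refine ⟨?_, h⟩
    rintro rfl
    rw [compat_self hI ((mem_ddup _ _).1 x.2)] at h
    simp at h

/-- Exact covers of the states are strong cliques. -/
theorem strong_of_exact {I : Inst} (hI : Good I) (K : Set Lab) (hK : ∀ a ∈ K, a ∈ labs I)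
    (hex : ∀ σ : St, σ.Ok I → ∃ a ∈ K, cv a σ)
    (hun : ∀ σ : St, σ.Ok I → ∀ a ∈ K, ∀ b ∈ K, cv a σ → cv b σ → a = b) :
    IsStrongClique (GG I) {x | x.1 ∈ K} := by
  refine ⟨?_, ?_⟩
  · intro x hx y hy hxy
    rw [GG_adj hI]
    by_contra h
    rw [Bool.not_eq_false] at h
    obtain ⟨σ, h1, h2⟩ := common hI {x.1, y.1} (by
      intro a ha
      rcases ha with rfl | rfl
      · exact (mem_ddup _ _).1 x.2
      · exact (mem_ddup _ _).1 y.2) (by
      have hx' := compat_self hI ((mem_ddup _ _).1 x.2)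
      have hy' := compat_self hI ((mem_ddup _ _).1 y.2)
      intro a ha b hb
      rcases ha with rfl | rfl <;> rcases hb with rfl | rfl
      · exact hx'
      · exact h
      · rw [compat_comm]; exact h
      · exact hy')
    exact hxy (Subtype.ext (hun σ h1 x.1 hx y.1 hy (h2 _ (by simp)) (h2 _ (by simp))))
  · intro S hS
    obtain ⟨σ, h1, h2⟩ := common hI {a | ∃ x ∈ S, x.1 = a} (by
      rintro a ⟨x, _, rfl⟩
      exact (mem_ddup _ _).1 x.2) (by
      rintro a ⟨x, hx, rfl⟩ b ⟨y, hy, rfl⟩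
      by_cases hxy : x = y
      · subst hxy
        exact compat_self hI ((mem_ddup _ _).1 x.2)
      · have : ¬ (GG I).Adj x y := hS.1 hx hy hxy
        rw [GG_adj hI, Bool.not_eq_false] at this
        exact this)
    obtain ⟨a, ha, hcv⟩ := hex σ h1
    have ha' : a ∈ ddup (labs I) := (mem_ddup _ _).2 (hK a ha)
    refine ⟨⟨a, ha'⟩, ha, ?_⟩
    have h3 : (GG I).IsIndepSet (insert ⟨a, ha'⟩ S) := by
      intro x hx y hy hxy
      rw [GG_adj hI, Bool.not_eq_false]
      have h4 : ∀ x ∈ insert (⟨a, ha'⟩ : {x // x ∈ ddup (labs I)}) S, cv x.1 σ := by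
        intro x hx
        rcases hx with rfl | hx
        · exact hcv
        · exact h2 _ ⟨x, hx, rfl⟩
      exact compat_of_cv (h4 x hx) (h4 y hy)
    exact hS.2 h3 (Set.subset_insert _ _) (Set.mem_insert _ _)

/-- A strong clique with both global labels gives a cover. -/
theorem cover_of_strong {I : Inst} (hI : Good I) {C : Set {x // x ∈ ddup (labs I)}}
    (hC : IsStrongClique (GG I) C) (hg : ∀ c, ∃ x ∈ C, x.1 = glob I c) : Cover I := by
  classical
  -- the other elements of the clique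
  have hkd : ∀ x ∈ C, (∀ c, x.1 ≠ glob I c) → x.1.1.2 = none := by
    intro x hx hne
    by_contra h
    obtain ⟨c, hc⟩ := Option.ne_none_iff_exists'.1 h
    obtain ⟨y, hy, hyc⟩ := hg c
    have hxy : x ≠ y := by
      rintro rfl
      exact hne c hyc
    have h1 := hC.1 hx hy hxy
    rw [GG_adj hI, ← Bool.not_eq_true] at h1
    apply h1
    rw [compat_iff, hyc]
    have hx' := (mem_ddup _ _).1 x.2
    refine ⟨⟨some c, Or.inr ⟨c, rfl, hc⟩, Or.inr ⟨c, rfl, rfl⟩⟩, ?_, ?_, ?_⟩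
    · rcases mem_labs.1 hx' with ⟨c, h2⟩ | ⟨X, hX, h2⟩ | ⟨z, hz, n, c, P, hP, h2⟩ |
        ⟨z, hz, t, _, Q, _, _, h2⟩
      · exact absurd h2 (hne c)
      · rw [h2] at hc; simp [spec] at hc
      · rw [h2]; exact ⟨z, by simp [loc], hz⟩
      · rw [h2] at hc; simp [nl] at hc
    · simp [glob, clash_false_iff]
    · intro t t' _ h2
      simp [glob] at h2
  refine ⟨{X | X ∈ I.2 ∧ ∃ x ∈ C, x.1 = spec X}, fun X hX => hX.1, ?_, ?_⟩
  · rintro X ⟨_, x, hx, hxX⟩ Y ⟨_, y, hy, hyY⟩ hXY z hzX hzY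
    have hxy : x ≠ y := by
      rintro rfl
      rw [hxX] at hyY
      apply hXY
      simpa [spec] using hyY
    have h1 := hC.1 hx hy hxy
    rw [GG_adj hI, ← Bool.not_eq_true] at h1
    apply h1
    rw [hxX, hyY, compat_iff]
    refine ⟨⟨none, Or.inl ⟨rfl, rfl⟩, Or.inl ⟨rfl, rfl⟩⟩, ⟨z, hzX, hzY⟩, ?_, ?_⟩
    · simp [spec, clash_false_iff]
    · intro t t' h2
      simp [spec] at h2
  · intro z hz
    by_contra hcon
    push Not at hcon
    obtain ⟨hcon1, τ, hcon2⟩ := hcon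
    -- the stable set of the state without a selected cube
    set σ : St := ⟨none, z, τ, none⟩ with hσ
    set S₀ : Set {x // x ∈ ddup (labs I)} := {x | cv x.1 σ} with hS₀
    have hind : (GG I).IsIndepSet S₀ := by
      intro x hx y hy _
      rw [GG_adj hI, Bool.not_eq_false]
      exact compat_of_cv hx hy
    obtain ⟨S, hS1, hS2⟩ : ∃ S, S₀ ⊆ S ∧ Maximal (GG I).IsIndepSet S := by
      have hfin : {S : Set {x // x ∈ ddup (labs I)} | (GG I).IsIndepSet S}.Finite :=
        Set.toFinite _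
      exact hfin.exists_le_maximal hind
    obtain ⟨x, hxC, hxS⟩ := hC.2 S hS2
    have hcomp : ∀ y ∈ S, compat x.1 y.1 = true := by
      intro y hy
      by_cases hxy : x = y
      · subst hxy
        exact compat_self hI ((mem_ddup _ _).1 x.2)
      · have : ¬ (GG I).Adj x y := hS2.1 hxS hy hxy
        rwa [GG_adj hI, Bool.not_eq_false] at this
    have hloc : ∀ P ∈ cubs I z, sat τ P → compat x.1 (loc true true z P) = true := by
      intro P hP hsat
      refine hcomp ⟨loc true true z P, (mem_ddup _ _).2 (loc_mem hz hP)⟩ (hS1 ?_)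
      refine ⟨Or.inl ⟨rfl, rfl⟩, by simp [hσ, loc], hsat, ?_⟩
      intro t h
      simp [loc] at h
    have hloc' : ∀ P ∈ cubs I z, sat τ P → compat x.1 (loc true false z P) = true := by
      intro P hP hsat
      refine hcomp ⟨loc true false z P, (mem_ddup _ _).2 (loc_mem hz hP)⟩ (hS1 ?_)
      refine ⟨Or.inl ⟨rfl, rfl⟩, by simp [hσ, loc], hsat, ?_⟩
      intro t h
      simp [loc] at h
    have hx' := (mem_ddup _ _).1 x.2
    by_cases hgl : ∃ c, x.1 = glob I c
    · obtain ⟨c, hc⟩ := hgl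
      have h1 := hloc [] nil_mem_cubs sat_nil
      have h2 := hloc' [] nil_mem_cubs sat_nil
      rw [hc, compat_iff] at h1 h2
      obtain ⟨⟨k, h3, h4⟩, _⟩ := h1
      obtain ⟨⟨k', h5, h6⟩, _⟩ := h2
      unfold Kd glob loc at *
      simp only [Bool.false_eq_true, and_false, false_or] at h3 h5
      obtain ⟨c1, rfl, hc1⟩ := h3
      obtain ⟨c2, rfl, hc2⟩ := h5
      simp only [reduceCtorEq, false_and, false_or, Option.some.injEq] at h4 h6 hc1 hc2
      obtain ⟨_, rfl, h4⟩ := h4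
      obtain ⟨_, rfl, h6⟩ := h6
      subst hc1
      subst hc2
      rw [← h4] at h6
      simp at h6
    · push Not at hgl
      have hk := hkd x hxC hgl
      rcases mem_labs.1 hx' with ⟨c, h2⟩ | ⟨X, hX, h2⟩ | ⟨z', hz', n, c, P, hP, h2⟩ |
        ⟨z', hz', t, ht, Q, hQ, hQc, h2⟩
      · exact hgl c h2
      · have h1 := hloc [] nil_mem_cubs sat_nil
        rw [h2, compat_iff] at h1
        obtain ⟨_, ⟨z', h3, h4⟩, _⟩ := h1
        simp only [loc, List.mem_singleton] at h4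
        subst h4
        exact hcon1 X ⟨hX, x, hxC, h2⟩ h3
      · rw [h2] at hk
        simp [loc] at hk
      · have h1 := hloc [] nil_mem_cubs sat_nil
        rw [h2, compat_iff] at h1
        obtain ⟨_, ⟨z'', h3, h4⟩, _⟩ := h1
        simp only [loc, nl, List.mem_singleton] at h3 h4
        subst h4
        subst h3
        have h5 := hcon2 t ht
        unfold sat at h5
        push Not at h5
        obtain ⟨l, hl, hlt⟩ := h5
        have h6 : [(τ l.2, l.2)] ∈ cubs I z'' := by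
          rw [mem_cubs]
          refine ⟨⟨by simp, ?_⟩, ?_⟩
          · intro y hy
            rw [List.mem_singleton] at hy
            subst hy
            exact mem_litsOf.2 ⟨t, ht, l, hl, rfl⟩
          · rw [clash_false_iff]
            intro l hl m hm _
            rw [List.mem_singleton] at hl hm
            rw [hl, hm]
        have h7 := hloc _ h6 (by
          intro l' hl'
          rw [List.mem_singleton] at hl'
          subst hl'
          rfl)
        rw [h2, compat_iff] at h7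
        have h8 := h7.2.2.1
        rw [clash_false_iff] at h8
        have h9 := h8 l (by simp [nl, hl]) (τ l.2, l.2) (by simp [loc]) rfl
        exact hlt h9.symm

end Pool.Agent.Y650.TH
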