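import Pool.Agent.Y650.TH.G1

/-!
# Partitions into cubes and local exact covers
-/

set_option autoImplicit false

namespace Pool.Agent.Y650.TH

open Pool.Agent.NPC Pool.Agent.H622R2

/-! ### Partitions -/

/-- Every assignment satisfies exactly one of the cubes. -/
def IsPart (A : Set Cube) : Prop := (∀ τ, ∃ b ∈ A, sat τ b) ∧
  ∀ τ, ∀ b ∈ A, ∀ b' ∈ A, sat τ b → sat τ b' → b = b'

/-- Every assignment satisfying the literal satisfies exactly one of the cubes, and the others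
satisfy none. -/
def IsHalf (l : Lit) (A : Set Cube) : Prop := (∀ τ : ℕ → Bool, τ l.2 = l.1 → ∃ b ∈ A, sat τ b) ∧
  (∀ τ : ℕ → Bool, ∀ b ∈ A, sat τ b → τ l.2 = l.1) ∧
  ∀ τ, ∀ b ∈ A, ∀ b' ∈ A, sat τ b → sat τ b' → b = b'

/-- The negated literal. -/
def ng (l : Lit) : Lit := (!l.1, l.2)

/-- The partition by the literals of a cube. -/
def part : Cube → List Cube
  | [] => [[]]
  | l :: P => [ng l] :: (part P).map fun b => l :: b

theorem part_isPart : ∀ P : Cube, IsPart {b | b ∈ part P}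
  | [] => by
    refine ⟨fun τ => ⟨[], by simp [part], sat_nil⟩, fun τ b hb b' hb' _ _ => ?_⟩
    simp only [part, Set.mem_ofPred_eq, List.mem_singleton] at hb hb'
    rw [hb, hb']
  | l :: P => by
    obtain ⟨h1, h2⟩ := part_isPart P
    refine ⟨fun τ => ?_, fun τ b hb b' hb' hs hs' => ?_⟩
    · by_cases h : τ l.2 = l.1
      · obtain ⟨b, hb, hs⟩ := h1 τ
        exact ⟨l :: b, List.mem_cons_of_mem _ (List.mem_map.2 ⟨b, hb, rfl⟩), sat_cons.2 ⟨h, hs⟩⟩
      · refine ⟨[ng l], List.mem_cons_self, sat_cons.2 ⟨?_, sat_nil⟩⟩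
        unfold ng
        revert h
        cases τ l.2 <;> cases l.1 <;> simp
    · rcases List.mem_cons.1 hb with rfl | hb <;> rcases List.mem_cons.1 hb' with rfl | hb'
      · rfl
      · obtain ⟨d, hd, rfl⟩ := List.mem_map.1 hb'
        have e1 := (sat_cons.1 hs).1
        have e2 := (sat_cons.1 hs').1
        unfold ng at e1
        simp only at e1
        rw [e2] at e1
        revert e1
        cases l.1 <;> simp
      · obtain ⟨d, hd, rfl⟩ := List.mem_map.1 hb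
        have e1 := (sat_cons.1 hs').1
        have e2 := (sat_cons.1 hs).1
        unfold ng at e1
        simp only at e1
        rw [e2] at e1
        revert e1
        cases l.1 <;> simp
      · obtain ⟨d, hd, rfl⟩ := List.mem_map.1 hb
        obtain ⟨d', hd', rfl⟩ := List.mem_map.1 hb'
        rw [h2 τ d hd d' hd' (sat_cons.1 hs).2 (sat_cons.1 hs').2]

theorem mem_part : ∀ P : Cube, P ∈ part P
  | [] => by simp [part]
  | l :: P => List.mem_cons_of_mem _ (List.mem_map.2 ⟨P, mem_part P, rfl⟩)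

theorem part_le : ∀ (P : Cube), ∀ b ∈ part P, b.length ≤ P.length ∧ ∀ x ∈ b, ∃ y ∈ P, y.2 = x.2
  | [] => by
    intro b hb
    simp only [part, List.mem_singleton] at hb
    subst hb
    simp
  | l :: P => by
    intro b hb
    rcases List.mem_cons.1 hb with rfl | hb
    · refine ⟨by simp, fun x hx => ⟨l, by simp, ?_⟩⟩
      rw [List.mem_singleton] at hx
      rw [hx]
      rfl
    · obtain ⟨d, hd, rfl⟩ := List.mem_map.1 hb
      obtain ⟨h1, h2⟩ := part_le P d hd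
      refine ⟨by simpa using h1, fun x hx => ?_⟩
      rcases List.mem_cons.1 hx with rfl | hx
      · exact ⟨x, by simp, rfl⟩
      · obtain ⟨y, hy, hxy⟩ := h2 x hx
        exact ⟨y, by simp [hy], hxy⟩

/-- The partition of a half space which contains a given cube. -/
def half (l : Lit) (P : Cube) : List Cube :=
  (part (P.erase l)).map fun b => if b = P.erase l then P else l :: b

theorem sat_erase {τ : ℕ → Bool} {l : Lit} {P : Cube} (hl : l ∈ P) :
    sat τ P ↔ τ l.2 = l.1 ∧ sat τ (P.erase l) := by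
  rw [← sat_cons]
  unfold sat
  constructor
  · intro h x hx
    exact h x ((List.perm_cons_erase hl).mem_iff.2 hx)
  · intro h x hx
    exact h x ((List.perm_cons_erase hl).mem_iff.1 hx)

theorem sat_half {τ : ℕ → Bool} {l : Lit} {P : Cube} (hl : l ∈ P) (b : Cube) :
    sat τ (if b = P.erase l then P else l :: b) ↔ τ l.2 = l.1 ∧ sat τ b := by
  by_cases h : b = P.erase l
  · rw [if_pos h, h]
    exact sat_erase hl
  · rw [if_neg h]
    exact sat_cons

theorem half_isHalf {l : Lit} {P : Cube} (hl : l ∈ P) : IsHalf l {b | b ∈ half l P} := by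
  obtain ⟨h1, h2⟩ := part_isPart (P.erase l)
  refine ⟨fun τ h => ?_, fun τ b hb hs => ?_, fun τ b hb b' hb' hs hs' => ?_⟩
  · obtain ⟨b, hb, hs⟩ := h1 τ
    exact ⟨_, List.mem_map.2 ⟨b, hb, rfl⟩, (sat_half hl b).2 ⟨h, hs⟩⟩
  · obtain ⟨d, hd, rfl⟩ := List.mem_map.1 hb
    exact ((sat_half hl d).1 hs).1
  · obtain ⟨d, hd, rfl⟩ := List.mem_map.1 hb
    obtain ⟨d', hd', rfl⟩ := List.mem_map.1 hb'
    rw [h2 τ d hd d' hd' ((sat_half hl d).1 hs).2 ((sat_half hl d').1 hs').2]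

theorem mem_half {l : Lit} {P : Cube} : P ∈ half l P :=
  List.mem_map.2 ⟨P.erase l, mem_part _, by simp⟩

theorem half_le {l : Lit} {P : Cube} (hl : l ∈ P) :
    ∀ b ∈ half l P, b.length ≤ P.length ∧ ∀ x ∈ b, ∃ y ∈ P, y.2 = x.2 := by
  intro b hb
  obtain ⟨d, hd, rfl⟩ := List.mem_map.1 hb
  obtain ⟨h1, h2⟩ := part_le _ d hd
  by_cases h : d = P.erase l
  · rw [if_pos h]
    exact ⟨le_rfl, fun x hx => ⟨x, hx, rfl⟩⟩
  · rw [if_neg h]
    have h3 := List.length_erase_of_mem hl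
    have h4 : 0 < P.length := List.length_pos_of_mem hl
    refine ⟨by rw [List.length_cons]; omega, fun x hx => ?_⟩
    rcases List.mem_cons.1 hx with rfl | hx
    · exact ⟨x, hl, rfl⟩
    · obtain ⟨y, hy, hxy⟩ := h2 x hx
      exact ⟨y, List.mem_of_mem_erase hy, hxy⟩

theorem isPart_halves {l l' : Lit} {A B : Set Cube} (hA : IsHalf l A) (hB : IsHalf l' B)
    (h2 : l.2 = l'.2) (h1 : l.1 ≠ l'.1) : IsPart (A ∪ B) := by
  have hb : l'.1 = !l.1 := by
    revert h1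
    cases l.1 <;> cases l'.1 <;> simp
  refine ⟨fun τ => ?_, fun τ b hb1 b' hb2 hs hs' => ?_⟩
  · by_cases h : τ l.2 = l.1
    · obtain ⟨b, hb, hs⟩ := hA.1 τ h
      exact ⟨b, Or.inl hb, hs⟩
    · obtain ⟨b, hb, hs⟩ := hB.1 τ (by
        rw [hb, ← h2]
        revert h
        cases τ l.2 <;> cases l.1 <;> simp)
      exact ⟨b, Or.inr hb, hs⟩
  · rcases hb1 with hb1 | hb1 <;> rcases hb2 with hb2 | hb2
    · exact hA.2.2 τ b hb1 b' hb2 hs hs'
    · have e1 := hA.2.1 τ b hb1 hs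
      have e2 := hB.2.1 τ b' hb2 hs'
      rw [h2, e2] at e1
      exact absurd e1.symm h1
    · have e1 := hB.2.1 τ b hb1 hs
      have e2 := hA.2.1 τ b' hb2 hs'
      rw [h2, e1] at e2
      exact absurd e2.symm h1
    · exact hB.2.2 τ b hb1 b' hb2 hs hs'

/-- The cube fits. -/
def Fits (I : Inst) (z : Key) (b : Cube) : Prop := b.length ≤ 6 ∧ ∀ x ∈ b, x ∈ litsOf I z

theorem mem_cubs' {I : Inst} {z : Key} {P : Cube} : P ∈ cubs I z ↔ Fits I z P ∧ clash P P = false :=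
  mem_cubs

theorem fits_of {I : Inst} {z : Key} {P b : Cube} (hP : Fits I z P)
    (h : b.length ≤ P.length ∧ ∀ x ∈ b, ∃ y ∈ P, y.2 = x.2) : Fits I z b := by
  refine ⟨h.1.trans hP.1, fun x hx => ?_⟩
  obtain ⟨y, hy, hxy⟩ := h.2 x hx
  obtain ⟨t, ht, l, hl, h'⟩ := mem_litsOf.1 (hP.2 y hy)
  exact mem_litsOf.2 ⟨t, ht, l, hl, h'.trans hxy⟩

theorem fits_part {I : Inst} {z : Key} {P : Cube} (hP : Fits I z P) :
    ∀ b ∈ {b | b ∈ part P}, Fits I z b := fun b hb => fits_of hP (part_le P b hb)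

theorem fits_half {I : Inst} {z : Key} {l : Lit} {P : Cube} (hl : l ∈ P) (hP : Fits I z P) :
    ∀ b ∈ {b | b ∈ half l P}, Fits I z b := fun b hb => fits_of hP (half_le hl b hb)

theorem fits_bad {I : Inst} (hI : Good I) {z : Key} (hz : z ∈ keys I) {t : Cube}
    (ht : t ∈ bad I z) : Fits I z t :=
  ⟨(hI.three z hz t ht).trans (by norm_num), fun x hx => mem_litsOf.2 ⟨t, ht, x, hx, rfl⟩⟩

theorem fits_nil {I : Inst} {z : Key} : Fits I z [] := ⟨by simp, by simp⟩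

/-! ### Local exact covers -/

/-- A local exact cover of the states of a type with the kinds `nd`. -/
structure LE (I : Inst) (z : Key) (nd : Option Bool → Prop) (K : Set Lab) : Prop where
  mem : ∀ a ∈ K, a ∈ labs I ∧ a.2.1 = [z]
  ex : ∀ σ : St, σ.Ok I → σ.z = z → nd σ.k → ∃ a ∈ K, cv a σ
  only : ∀ σ : St, ∀ a ∈ K, cv a σ → nd σ.k
  un : ∀ σ : St, σ.Ok I → ∀ a ∈ K, ∀ b ∈ K, cv a σ → cv b σ → a = b

theorem cv_loc {n c : Bool} {z : Key} {P : Cube} {σ : St} : cv (loc n c z P) σ ↔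
    ((σ.k = none ∧ n = true) ∨ σ.k = some c) ∧ σ.z = z ∧ sat σ.τ P := by
  unfold cv Kd loc
  simp only [Option.some.injEq, List.mem_singleton, reduceCtorEq, IsEmpty.forall_iff, implies_true,
    and_true]
  refine and_congr_left fun _ => or_congr_right ?_
  constructor
  · rintro ⟨c', h, h'⟩
    rw [h, h']
  · intro h
    exact ⟨c, h, rfl⟩

theorem cv_nl {z : Key} {t Q : Cube} {σ : St} : cv (nl z t Q) σ ↔
    σ.k = none ∧ σ.z = z ∧ (sat σ.τ t ∧ sat σ.τ Q) ∧ σ.s = some t := by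
  unfold cv Kd nl
  simp only [List.mem_singleton, reduceCtorEq, and_false, exists_false, or_false, and_true,
    Option.some.injEq, forall_eq', sat_append]

theorem no_marks {c : Bool} {k : Option Bool} (h1 : k = some c) (h2 : k = some (!c)) : False := by
  rw [h1] at h2
  simp at h2

/-- The template with one colour in the clean part and labels with bad cubes in the rest. -/
theorem template {I : Inst} {z : Key} (hz : z ∈ keys I) (c : Bool) (A R : Set Cube)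
    (mark : Cube → Prop) (W : Cube → Set Cube) (hA : IsPart A) (hAf : ∀ b ∈ A, Fits I z b)
    (hR : IsPart R) (hRf : ∀ b ∈ R, Fits I z b)
    (m1 : ∀ b ∈ A, mark b → ∀ τ, sat τ b → ∃ t ∈ bad I z, sat τ t)
    (m2 : ∀ t ∈ bad I z, ∀ τ, sat τ t → ((∃ b ∈ A, mark b ∧ sat τ b) ↔ ∃ Q ∈ W t, sat τ Q))
    (m3 : ∀ t ∈ bad I z, ∀ τ, sat τ t → ∀ Q ∈ W t, ∀ Q' ∈ W t, sat τ Q → sat τ Q' → Q = Q')
    (m4 : ∀ t ∈ bad I z, ∀ Q ∈ W t, Fits I z Q) :
    LE I z (fun _ => True) {a | (∃ b ∈ A, clash b b = false ∧ ¬ mark b ∧ a = loc true c z b) ∨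
      (∃ b ∈ A, clash b b = false ∧ mark b ∧ a = loc false c z b) ∨
      (∃ b ∈ R, clash b b = false ∧ a = loc false (!c) z b) ∨
      (∃ t ∈ bad I z, ∃ Q ∈ W t, clash (t ++ Q) (t ++ Q) = false ∧ a = nl z t Q)} := by
  constructor
  · rintro a (⟨b, hb, hc, _, rfl⟩ | ⟨b, hb, hc, _, rfl⟩ | ⟨b, hb, hc, rfl⟩ | ⟨t, ht, Q, hQ, hc, rfl⟩)
    · exact ⟨loc_mem hz (mem_cubs'.2 ⟨hAf b hb, hc⟩), rfl⟩
    · exact ⟨loc_mem hz (mem_cubs'.2 ⟨hAf b hb, hc⟩), rfl⟩
    · exact ⟨loc_mem hz (mem_cubs'.2 ⟨hRf b hb, hc⟩), rfl⟩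
    · refine ⟨nl_mem hz ht (mem_cubs'.2 ⟨m4 t ht Q hQ, ?_⟩) hc, rfl⟩
      rw [clash_false_iff] at hc ⊢
      exact fun l hl m hm h => hc l (List.mem_append_right _ hl) m (List.mem_append_right _ hm) h
  · intro σ hσ hσz _
    obtain ⟨b, hb, hs⟩ := hA.1 σ.τ
    have hcl := not_clash_of_sat hs hs
    rcases hk : σ.k with _ | c'
    · by_cases hm : mark b
      · rcases hσ.2 hk with ⟨_, h2⟩ | ⟨t, ht, h1, h2⟩
        · obtain ⟨t, ht, h3⟩ := m1 b hb hm σ.τ hs
          rw [hσz] at h2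
          exact absurd h3 (h2 t ht)
        · rw [hσz] at ht
          obtain ⟨Q, hQ, hQs⟩ := (m2 t ht σ.τ h2).1 ⟨b, hb, hm, hs⟩
          have h3 := sat_append.2 ⟨h2, hQs⟩
          exact ⟨nl z t Q, Or.inr (Or.inr (Or.inr ⟨t, ht, Q, hQ, not_clash_of_sat h3 h3, rfl⟩)),
            cv_nl.2 ⟨hk, hσz, ⟨h2, hQs⟩, h1⟩⟩
      · exact ⟨loc true c z b, Or.inl ⟨b, hb, hcl, hm, rfl⟩, cv_loc.2 ⟨Or.inl ⟨hk, rfl⟩, hσz, hs⟩⟩
    · by_cases hcc : c' = c
      · subst hcc
        by_cases hm : mark b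
        · exact ⟨loc false c' z b, Or.inr (Or.inl ⟨b, hb, hcl, hm, rfl⟩),
            cv_loc.2 ⟨Or.inr hk, hσz, hs⟩⟩
        · exact ⟨loc true c' z b, Or.inl ⟨b, hb, hcl, hm, rfl⟩, cv_loc.2 ⟨Or.inr hk, hσz, hs⟩⟩
      · obtain ⟨r, hr, hrs⟩ := hR.1 σ.τ
        have hcc' : c' = !c := by
          revert hcc
          cases c' <;> cases c <;> simp
        rw [hcc'] at hk
        exact ⟨loc false (!c) z r, Or.inr (Or.inr (Or.inl ⟨r, hr, not_clash_of_sat hrs hrs, rfl⟩)),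
          cv_loc.2 ⟨Or.inr hk, hσz, hrs⟩⟩
  · intro σ a _ _
    trivial
  · rintro σ hσ a ha b hb h1 h2
    have key14 : ∀ x ∈ A, ¬ mark x → ∀ t ∈ bad I z, ∀ Q ∈ W t, cv (loc true c z x) σ →
        cv (nl z t Q) σ → False := by
      intro x hx hm t ht Q hQ h1 h2
      rw [cv_loc] at h1
      rw [cv_nl] at h2
      obtain ⟨y, hy, hmy, hys⟩ := (m2 t ht σ.τ h2.2.2.1.1).2 ⟨Q, hQ, h2.2.2.1.2⟩
      rw [hA.2 σ.τ x hx y hy h1.2.2 hys] at hm
      exact hm hmy
    have key13 : ∀ (n : Bool) (x y : Cube), cv (loc n c z x) σ → cv (loc false (!c) z y) σ →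
        False := by
      intro n x y h1 h2
      rw [cv_loc] at h1 h2
      rcases h2.1 with ⟨_, h⟩ | h
      · simp at h
      · rcases h1.1 with ⟨h', _⟩ | h'
        · rw [h] at h'; simp at h'
        · exact no_marks h' h
    have key34 : ∀ (c' : Bool) (x t Q : Cube), cv (loc false c' z x) σ → cv (nl z t Q) σ →
        False := by
      intro c' x t Q h1 h2
      rw [cv_loc] at h1
      rw [cv_nl] at h2
      rcases h1.1 with ⟨_, h⟩ | h
      · simp at h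
      · rw [h2.1] at h
        simp at h
    rcases ha with ⟨x, hx, _, hm, rfl⟩ | ⟨x, hx, _, hm, rfl⟩ | ⟨x, hx, _, rfl⟩ |
        ⟨t, ht, Q, hQ, _, rfl⟩ <;>
      rcases hb with ⟨y, hy, _, hm', rfl⟩ | ⟨y, hy, _, hm', rfl⟩ | ⟨y, hy, _, rfl⟩ |
        ⟨t', ht', Q', hQ', _, rfl⟩
    · rw [hA.2 σ.τ x hx y hy (cv_loc.1 h1).2.2 (cv_loc.1 h2).2.2]
    · rw [hA.2 σ.τ x hx y hy (cv_loc.1 h1).2.2 (cv_loc.1 h2).2.2] at hm
      exact absurd hm' hm
    · exact (key13 _ _ _ h1 h2).elim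
    · exact (key14 x hx hm t' ht' Q' hQ' h1 h2).elim
    · rw [hA.2 σ.τ x hx y hy (cv_loc.1 h1).2.2 (cv_loc.1 h2).2.2] at hm
      exact absurd hm hm'
    · rw [hA.2 σ.τ x hx y hy (cv_loc.1 h1).2.2 (cv_loc.1 h2).2.2]
    · exact (key13 _ _ _ h1 h2).elim
    · exact (key34 _ _ _ _ h1 h2).elim
    · exact (key13 _ _ _ h2 h1).elim
    · exact (key13 _ _ _ h2 h1).elim
    · rw [hR.2 σ.τ x hx y hy (cv_loc.1 h1).2.2 (cv_loc.1 h2).2.2]
    · exact (key34 _ _ _ _ h1 h2).elim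
    · exact (key14 y hy hm' t ht Q hQ h2 h1).elim
    · exact (key34 _ _ _ _ h2 h1).elim
    · exact (key34 _ _ _ _ h2 h1).elim
    · rw [cv_nl] at h1 h2
      have h3 := h1.2.2.2
      rw [h2.2.2.2] at h3
      have h4 := Option.some.inj h3
      subst h4
      rw [m3 t' ht' σ.τ h1.2.2.1.1 Q hQ Q' hQ' h1.2.2.1.2 h2.2.2.1.2]

/-- The template with colours. -/
theorem coloured {I : Inst} {z : Key} (hz : z ∈ keys I) (A : Set Cube) (col : Cube → Bool)
    (hA : IsPart A) (hAf : ∀ b ∈ A, Fits I z b) :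
    LE I z (fun _ => True) {a | ∃ b ∈ A, clash b b = false ∧
      (a = loc true (col b) z b ∨ a = loc false (!(col b)) z b)} := by
  constructor
  · rintro a ⟨b, hb, hc, rfl | rfl⟩
    · exact ⟨loc_mem hz (mem_cubs'.2 ⟨hAf b hb, hc⟩), rfl⟩
    · exact ⟨loc_mem hz (mem_cubs'.2 ⟨hAf b hb, hc⟩), rfl⟩
  · intro σ hσ hσz _
    obtain ⟨b, hb, hs⟩ := hA.1 σ.τ
    have hcl := not_clash_of_sat hs hs
    rcases hk : σ.k with _ | c'
    · exact ⟨loc true (col b) z b, ⟨b, hb, hcl, Or.inl rfl⟩, cv_loc.2 ⟨Or.inl ⟨hk, rfl⟩, hσz, hs⟩⟩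
    · by_cases hcc : c' = col b
      · exact ⟨loc true (col b) z b, ⟨b, hb, hcl, Or.inl rfl⟩,
          cv_loc.2 ⟨Or.inr (by rw [hk, hcc]), hσz, hs⟩⟩
      · have hcc' : c' = !(col b) := by
          revert hcc
          cases c' <;> cases col b <;> simp
        exact ⟨loc false (!(col b)) z b, ⟨b, hb, hcl, Or.inr rfl⟩,
          cv_loc.2 ⟨Or.inr (by rw [hk, hcc']), hσz, hs⟩⟩
  · intro σ a _ _
    trivial
  · rintro σ hσ a ⟨x, hx, _, ha⟩ b ⟨y, hy, _, hb⟩ h1 h2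
    have h3 : x = y := by
      refine hA.2 σ.τ x hx y hy ?_ ?_
      · rcases ha with rfl | rfl
        · exact (cv_loc.1 h1).2.2
        · exact (cv_loc.1 h1).2.2
      · rcases hb with rfl | rfl
        · exact (cv_loc.1 h2).2.2
        · exact (cv_loc.1 h2).2.2
    subst h3
    have key : ∀ n : Bool, cv (loc n (col x) z x) σ → cv (loc false (!(col x)) z x) σ →
        False := by
      intro n h1 h2
      rw [cv_loc] at h1 h2
      rcases h2.1 with ⟨_, h⟩ | h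
      · simp at h
      · rcases h1.1 with ⟨h', _⟩ | h'
        · rw [h] at h'; simp at h'
        · exact no_marks h' h
    rcases ha with rfl | rfl <;> rcases hb with rfl | rfl
    · rfl
    · exact (key _ h1 h2).elim
    · exact (key _ h2 h1).elim
    · rfl

/-- The template with small labels only. -/
theorem smalls {I : Inst} {z : Key} (hz : z ∈ keys I) (Cs : Bool → Prop) (A : Bool → Set Cube)
    (hA : ∀ c, IsPart (A c)) (hAf : ∀ c, ∀ b ∈ A c, Fits I z b) :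
    LE I z (fun k => ∃ c, k = some c ∧ Cs c)
      {a | ∃ c, Cs c ∧ ∃ b ∈ A c, clash b b = false ∧ a = loc false c z b} := by
  constructor
  · rintro a ⟨c, _, b, hb, hc, rfl⟩
    exact ⟨loc_mem hz (mem_cubs'.2 ⟨hAf c b hb, hc⟩), rfl⟩
  · rintro σ hσ hσz ⟨c, hk, hc⟩
    obtain ⟨b, hb, hs⟩ := (hA c).1 σ.τ
    exact ⟨loc false c z b, ⟨c, hc, b, hb, not_clash_of_sat hs hs, rfl⟩,
      cv_loc.2 ⟨Or.inr hk, hσz, hs⟩⟩
  · rintro σ a ⟨c, hc, b, hb, _, rfl⟩ h
    rcases (cv_loc.1 h).1 with ⟨_, h⟩ | h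
    · simp at h
    · exact ⟨c, h, hc⟩
  · rintro σ hσ a ⟨c, hc, x, hx, _, rfl⟩ b ⟨c', hc', y, hy, _, rfl⟩ h1 h2
    rw [cv_loc] at h1 h2
    rcases h1.1 with ⟨_, h⟩ | h
    · simp at h
    · rcases h2.1 with ⟨_, h'⟩ | h'
      · simp at h'
      · rw [h] at h'
        have h3 := Option.some.inj h'
        subst h3
        rw [(hA c).2 σ.τ x hx y hy h1.2.2 h2.2.2]

/-- Deletion of a small label with the empty cube. -/
theorem LE.delete {I : Inst} {z : Key} (hz : z ∈ keys I) {K : Set Lab} (c : Bool)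
    (hK : LE I z (fun _ => True) K) (hc : loc false c z [] ∈ K) :
    LE I z (fun k => k ≠ some c) (K \ {loc false c z []}) := by
  constructor
  · intro a ha
    exact hK.mem a ha.1
  · intro σ hσ hσz hk
    obtain ⟨a, ha, hcv⟩ := hK.ex σ hσ hσz trivial
    refine ⟨a, ⟨ha, ?_⟩, hcv⟩
    rintro rfl
    rcases (cv_loc.1 hcv).1 with ⟨_, h⟩ | h
    · simp at h
    · exact hk h
  · rintro σ a ⟨ha, hne⟩ hcv h
    have hσz : σ.z = z := by
      have := hcv.2.1
      rw [(hK.mem a ha).2, List.mem_singleton] at this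
      exact this
    refine hne (hK.un σ ⟨by rw [hσz]; exact hz, fun h' => ?_⟩ a ha _ hc hcv
      (cv_loc.2 ⟨Or.inr h, hσz, sat_nil⟩))
    rw [h] at h'
    simp at h'
  · intro σ hσ a ha b hb
    exact hK.un σ hσ a ha.1 b hb.1

end Pool.Agent.Y650.TH
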