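import Pool.Agent.Y650.TH.G2

/-!
# Local exact covers with two given labels
-/

set_option autoImplicit false

namespace Pool.Agent.Y650.TH

open Pool.Agent.NPC Pool.Agent.H622R2

/-- Local labels. -/
def IsLoc (I : Inst) (z : Key) (a : Lab) : Prop :=
  (∃ n c, ∃ P ∈ cubs I z, a = loc n c z P) ∨
    ∃ t ∈ bad I z, ∃ Q ∈ cubs I z, clash (t ++ Q) (t ++ Q) = false ∧ a = nl z t Q

theorem compat_loc {n c n' c' : Bool} {z : Key} {P P' : Cube}
    (h : c = c' ∨ (n = true ∧ n' = true)) (hc : compat (loc n c z P) (loc n' c' z P') = false) :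
    clash P P' = true := by
  by_contra hcl
  rw [Bool.not_eq_true] at hcl
  rw [← Bool.not_eq_true] at hc
  apply hc
  rw [compat_iff]
  refine ⟨?_, ⟨z, by simp [loc], by simp [loc]⟩, hcl, fun t t' h => by simp [loc] at h⟩
  rcases h with rfl | ⟨rfl, rfl⟩
  · exact ⟨some c, Or.inr ⟨c, rfl, rfl⟩, Or.inr ⟨c, rfl, rfl⟩⟩
  · exact ⟨none, Or.inl ⟨rfl, rfl⟩, Or.inl ⟨rfl, rfl⟩⟩

theorem ll {I : Inst} {z : Key} (hz : z ∈ keys I) {n c n' c' : Bool} {P P' : Cube}
    (hP : P ∈ cubs I z) (hP' : P' ∈ cubs I z)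
    (hc : compat (loc n c z P) (loc n' c' z P') = false)
    (hs : ¬ (n = false ∧ n' = false ∧ c ≠ c')) :
    ∃ K, LE I z (fun _ => True) K ∧ loc n c z P ∈ K ∧ loc n' c' z P' ∈ K := by
  obtain ⟨hPf, hPc⟩ := mem_cubs'.1 hP
  obtain ⟨hPf', hPc'⟩ := mem_cubs'.1 hP'
  by_cases hk : c = c' ∨ (n = true ∧ n' = true)
  · have hcl := compat_loc hk hc
    obtain ⟨l, hl, m, hm, h1, h2⟩ := (clash_iff _ _).1 hcl
    have hne : P' ≠ P := by
      rintro rfl
      rw [hPc] at hcl
      simp at hcl
    have hA : IsPart ({b | b ∈ half l P} ∪ {b | b ∈ half m P'}) :=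
      isPart_halves (half_isHalf hl) (half_isHalf hm) h1 h2
    refine ⟨_, coloured hz _ (fun b => if b = P then (if n then c else !c)
      else (if n' then c' else !c')) hA ?_, ?_, ?_⟩
    · rintro b (hb | hb)
      · exact fits_half hl hPf b hb
      · exact fits_half hm hPf' b hb
    · refine ⟨P, Or.inl mem_half, hPc, ?_⟩
      simp only [if_true]
      cases n
      · right; simp
      · left; simp
    · refine ⟨P', Or.inr mem_half, hPc', ?_⟩
      simp only [if_neg hne]
      cases n'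
      · right; simp
      · left; simp
  · push Not at hk
    obtain ⟨hk1, hk2⟩ := hk
    have hcc : c' = !c := by
      revert hk1
      cases c <;> cases c' <;> simp
    cases n with
    | true =>
      have hn' : n' = false := by simpa using hk2 rfl
      subst hn'
      refine ⟨_, template hz c {b | b ∈ part P} {b | b ∈ part P'} (fun _ => False)
        (fun _ => ∅) (part_isPart P) (fits_part hPf) (part_isPart P') (fits_part hPf')
        (fun _ _ h => h.elim) (fun t _ τ _ => by simp) (fun t _ τ _ Q hQ => by simp at hQ)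
        (fun t _ Q hQ => by simp at hQ), ?_, ?_⟩
      · exact Or.inl ⟨P, mem_part P, hPc, fun h => h, rfl⟩
      · rw [hcc]
        exact Or.inr (Or.inr (Or.inl ⟨P', mem_part P', hPc', rfl⟩))
    | false =>
      have hn' : n' = true := by
        by_contra h
        exact hs ⟨rfl, by simpa using h, hk1⟩
      subst hn'
      have hcc2 : c = !c' := by rw [hcc, Bool.not_not]
      refine ⟨_, template hz c' {b | b ∈ part P'} {b | b ∈ part P} (fun _ => False)
        (fun _ => ∅) (part_isPart P') (fits_part hPf') (part_isPart P) (fits_part hPf)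
        (fun _ _ h => h.elim) (fun t _ τ _ => by simp) (fun t _ τ _ Q hQ => by simp at hQ)
        (fun t _ Q hQ => by simp at hQ), ?_, ?_⟩
      · right; right; left
        refine ⟨P, mem_part P, hPc, ?_⟩
        rw [← hcc2]
      · exact Or.inl ⟨P', mem_part P', hPc', fun h => h, rfl⟩

/-- The template with one dirty block. -/
theorem single {I : Inst} {z : Key} (hz : z ∈ keys I) (c : Bool) (A R : Set Cube)
    (B t : Cube) (Y : Set Cube) (hA : IsPart A) (hAf : ∀ b ∈ A, Fits I z b) (hR : IsPart R)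
    (hRf : ∀ b ∈ R, Fits I z b) (hB : B ∈ A) (ht : t ∈ bad I z) (hBt : ∀ τ, sat τ B → sat τ t)
    (hY : ∀ τ, sat τ t → (sat τ B ↔ ∃ Q ∈ Y, sat τ Q))
    (hYu : ∀ τ, sat τ t → ∀ Q ∈ Y, ∀ Q' ∈ Y, sat τ Q → sat τ Q' → Q = Q')
    (hYf : ∀ Q ∈ Y, Fits I z Q) :
    ∃ K, LE I z (fun _ => True) K ∧ (∀ b ∈ A, b ≠ B → clash b b = false → loc true c z b ∈ K) ∧
      (∀ b ∈ R, clash b b = false → loc false (!c) z b ∈ K) ∧
      ∀ Q ∈ Y, clash (t ++ Q) (t ++ Q) = false → nl z t Q ∈ K := by
  classical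
  refine ⟨_, template hz c A R (fun b => b = B) (fun t' => if t' = t then Y else {B}) hA hAf hR hRf
    ?_ ?_ ?_ ?_, ?_, ?_, ?_⟩
  · rintro b _ rfl τ hs
    exact ⟨t, ht, hBt τ hs⟩
  · intro t' ht' τ hs
    have e1 : (∃ b ∈ A, b = B ∧ sat τ b) ↔ sat τ B := by
      constructor
      · rintro ⟨b, _, rfl, h⟩; exact h
      · exact fun h => ⟨B, hB, rfl, h⟩
    rw [e1]
    by_cases h : t' = t
    · subst h
      simp only [if_true]
      exact hY τ hs
    · simp only [if_neg h]
      simp
  · intro t' ht' τ hs Q hQ Q' hQ' h1 h2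
    by_cases h : t' = t
    · subst h
      simp only [if_true] at hQ hQ'
      exact hYu τ hs Q hQ Q' hQ' h1 h2
    · simp only [if_neg h, Set.mem_singleton_iff] at hQ hQ'
      rw [hQ, hQ']
  · intro t' ht' Q hQ
    by_cases h : t' = t
    · subst h
      simp only [if_true] at hQ
      exact hYf Q hQ
    · simp only [if_neg h, Set.mem_singleton_iff] at hQ
      rw [hQ]
      exact hAf B hB
  · intro b hb hne hc
    exact Or.inl ⟨b, hb, hc, hne, rfl⟩
  · intro b hb hc
    exact Or.inr (Or.inr (Or.inl ⟨b, hb, hc, rfl⟩))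
  · intro Q hQ hc
    exact Or.inr (Or.inr (Or.inr ⟨t, ht, Q, by simpa using hQ, hc, rfl⟩))

theorem clash_left {P Q : Cube} (h : clash (P ++ Q) (P ++ Q) = false) : clash P P = false := by
  rw [clash_false_iff] at h ⊢
  exact fun l hl m hm => h l (List.mem_append_left _ hl) m (List.mem_append_left _ hm)

theorem isPart_nil : IsPart {b | b ∈ part []} := part_isPart []

theorem ln {I : Inst} (hI : Good I) {z : Key} (hz : z ∈ keys I) {n c : Bool} {P t Q : Cube}
    (hP : P ∈ cubs I z) (ht : t ∈ bad I z) (hQ : Q ∈ cubs I z)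
    (htQ : clash (t ++ Q) (t ++ Q) = false)
    (hc : compat (loc n c z P) (nl z t Q) = false) :
    ∃ K, LE I z (fun _ => True) K ∧ loc n c z P ∈ K ∧ nl z t Q ∈ K := by
  obtain ⟨hPf, hPc⟩ := mem_cubs'.1 hP
  obtain ⟨hQf, hQc⟩ := mem_cubs'.1 hQ
  have htf := fits_bad hI hz ht
  cases n with
  | false =>
    obtain ⟨K, h1, _, h3, h4⟩ := single hz (!c) {b | b ∈ part t} {b | b ∈ part P} t t
      {b | b ∈ part Q} (part_isPart t) (fits_part htf) (part_isPart P) (fits_part hPf)
      (mem_part t) ht (fun _ h => h) (fun τ h => ⟨fun _ => (part_isPart Q).1 τ, fun _ => h⟩)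
      (fun τ _ => (part_isPart Q).2 τ) (fits_part hQf)
    refine ⟨K, h1, ?_, h4 Q (mem_part Q) htQ⟩
    have := h3 P (mem_part P) hPc
    rwa [Bool.not_not] at this
  | true =>
    have hcl : clash P (t ++ Q) = true := by
      by_contra hcl
      rw [Bool.not_eq_true] at hcl
      rw [← Bool.not_eq_true] at hc
      apply hc
      rw [compat_iff]
      exact ⟨⟨none, Or.inl ⟨rfl, rfl⟩, Or.inl ⟨rfl, rfl⟩⟩, ⟨z, by simp [loc], by simp [nl]⟩, hcl,
        fun t t' h => by simp [loc] at h⟩
    obtain ⟨l, hl, m, hm, h1, h2⟩ := (clash_iff _ _).1 hcl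
    have hPB : ∀ B : Cube, m ∈ B → P ≠ B := by
      rintro B hmB rfl
      rw [clash_false_iff] at hPc
      exact h2 (hPc l hl m hmB h1)
    by_cases hmt : m ∈ t
    · obtain ⟨K, e1, e2, _, e4⟩ := single hz c ({b | b ∈ half l P} ∪ {b | b ∈ half m t})
        {b | b ∈ part []} t t {b | b ∈ part Q}
        (isPart_halves (half_isHalf hl) (half_isHalf hmt) h1 h2)
        (by
          rintro b (hb | hb)
          · exact fits_half hl hPf b hb
          · exact fits_half hmt htf b hb)
        isPart_nil (fits_part fits_nil) (Or.inr mem_half) ht (fun _ h => h)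
        (fun τ h => ⟨fun _ => (part_isPart Q).1 τ, fun _ => h⟩)
        (fun τ _ => (part_isPart Q).2 τ) (fits_part hQf)
      exact ⟨K, e1, e2 P (Or.inl mem_half) (hPB t hmt) hPc, e4 Q (mem_part Q) htQ⟩
    · have hmQ : m ∈ Q := by
        rcases List.mem_append.1 hm with h | h
        · exact absurd h hmt
        · exact h
      have hmB : m ∈ m :: t := List.mem_cons_self
      have hBf : Fits I z (m :: t) := by
        refine ⟨?_, ?_⟩
        · have := hI.three z hz t ht
          rw [List.length_cons]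
          omega
        · intro x hx
          rcases List.mem_cons.1 hx with rfl | hx
          · exact hQf.2 x hmQ
          · exact htf.2 x hx
      obtain ⟨K, e1, e2, _, e4⟩ := single hz c ({b | b ∈ half l P} ∪ {b | b ∈ half m (m :: t)})
        {b | b ∈ part []} (m :: t) t {b | b ∈ half m Q}
        (isPart_halves (half_isHalf hl) (half_isHalf hmB) h1 h2)
        (by
          rintro b (hb | hb)
          · exact fits_half hl hPf b hb
          · exact fits_half hmB hBf b hb)
        isPart_nil (fits_part fits_nil) (Or.inr mem_half) ht (fun τ h => (sat_cons.1 h).2)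
        (fun τ h => by
          rw [sat_cons]
          constructor
          · rintro ⟨h3, _⟩
            exact (half_isHalf hmQ).1 τ h3
          · rintro ⟨Q', hQ', h3⟩
            exact ⟨(half_isHalf hmQ).2.1 τ Q' hQ' h3, h⟩)
        (fun τ _ => (half_isHalf hmQ).2.2 τ) (fits_half hmQ hQf)
      exact ⟨K, e1, e2 P (Or.inl mem_half) (hPB _ hmB) hPc, e4 Q mem_half htQ⟩

theorem nn {I : Inst} (hI : Good I) {z : Key} (hz : z ∈ keys I) {t Q t' Q' : Cube}
    (ht : t ∈ bad I z) (hQ : Q ∈ cubs I z) (htQ : clash (t ++ Q) (t ++ Q) = false)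
    (ht' : t' ∈ bad I z) (hQ' : Q' ∈ cubs I z) (htQ' : clash (t' ++ Q') (t' ++ Q') = false)
    (hc : compat (nl z t Q) (nl z t' Q') = false) :
    ∃ K, LE I z (fun _ => True) K ∧ nl z t Q ∈ K ∧ nl z t' Q' ∈ K := by
  classical
  obtain ⟨hQf, hQc⟩ := mem_cubs'.1 hQ
  obtain ⟨hQf', hQc'⟩ := mem_cubs'.1 hQ'
  have htf := fits_bad hI hz ht
  have htf' := fits_bad hI hz ht'
  by_cases htt : t = t'
  · subst htt
    have hcl : clash (t ++ Q) (t ++ Q') = true := by
      by_contra hcl
      rw [Bool.not_eq_true] at hcl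
      rw [← Bool.not_eq_true] at hc
      apply hc
      rw [compat_iff]
      refine ⟨⟨none, Or.inl ⟨rfl, rfl⟩, Or.inl ⟨rfl, rfl⟩⟩, ⟨z, by simp [nl], by simp [nl]⟩, hcl,
        fun s s' h h' => ?_⟩
      simp only [nl, Option.some.injEq] at h h'
      rw [← h, ← h']
    obtain ⟨l, hl, m, hm, h1, h2⟩ := (clash_iff _ _).1 hcl
    have hc1 := (clash_false_iff _ _).1 htQ
    have hc2 := (clash_false_iff _ _).1 htQ'
    have hlQ : l ∈ Q := by
      rcases List.mem_append.1 hl with h | h
      · exact absurd (hc2 l (List.mem_append_left _ h) m hm h1) h2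
      · exact h
    have hmQ : m ∈ Q' := by
      rcases List.mem_append.1 hm with h | h
      · exact absurd (hc1 l hl m (List.mem_append_left _ h) h1) h2
      · exact h
    have hpart := isPart_halves (half_isHalf hlQ) (half_isHalf hmQ) h1 h2
    obtain ⟨K, e1, _, _, e4⟩ := single hz true {b | b ∈ part t} {b | b ∈ part []} t t
      ({b | b ∈ half l Q} ∪ {b | b ∈ half m Q'}) (part_isPart t) (fits_part htf) isPart_nil
      (fits_part fits_nil) (mem_part t) ht (fun _ h => h)
      (fun τ h => ⟨fun _ => hpart.1 τ, fun _ => h⟩) (fun τ _ => hpart.2 τ)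
      (by
        rintro b (hb | hb)
        · exact fits_half hlQ hQf b hb
        · exact fits_half hmQ hQf' b hb)
    exact ⟨K, e1, e4 Q (Or.inl mem_half) htQ, e4 Q' (Or.inr mem_half) htQ'⟩
  · set A : Set Cube := {b | ∃ x ∈ part t, ∃ y ∈ part t', b = x ++ y} with hAdef
    have hA : IsPart A := by
      refine ⟨fun τ => ?_, ?_⟩
      · obtain ⟨x, hx, hxs⟩ := (part_isPart t).1 τ
        obtain ⟨y, hy, hys⟩ := (part_isPart t').1 τ
        exact ⟨x ++ y, ⟨x, hx, y, hy, rfl⟩, sat_append.2 ⟨hxs, hys⟩⟩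
      · rintro τ b ⟨x, hx, y, hy, rfl⟩ b' ⟨x', hx', y', hy', rfl⟩ h h'
        rw [sat_append] at h h'
        rw [(part_isPart t).2 τ x hx x' hx' h.1 h'.1, (part_isPart t').2 τ y hy y' hy' h.2 h'.2]
    have hAf : ∀ b ∈ A, Fits I z b := by
      rintro b ⟨x, hx, y, hy, rfl⟩
      have h1 := fits_part htf x hx
      have h2 := fits_part htf' y hy
      have h3 := (part_le t x hx).1.trans (hI.three z hz t ht)
      have h4 := (part_le t' y hy).1.trans (hI.three z hz t' ht')
      refine ⟨by rw [List.length_append]; omega, fun w hw => ?_⟩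
      rcases List.mem_append.1 hw with h | h
      · exact h1.2 w h
      · exact h2.2 w h
    set mark : Cube → Prop := fun b => (∀ τ, sat τ b → sat τ t) ∨ (∀ τ, sat τ b → sat τ t')
      with hmark
    set W : Cube → Set Cube := fun s => if s = t then {b | b ∈ part Q} else
      if s = t' then {b | b ∈ part Q'} else {b | b ∈ A ∧ mark b} with hW
    have hWt : W t = {b | b ∈ part Q} := by simp [hW]
    have hWt' : W t' = {b | b ∈ part Q'} := by
      simp only [hW]
      rw [if_neg (Ne.symm htt)]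
      simp
    have hWs : ∀ s, s ≠ t → s ≠ t' → W s = {b | b ∈ A ∧ mark b} := by
      intro s h1 h2
      simp only [hW]
      rw [if_neg h1, if_neg h2]
    refine ⟨_, template hz true A {b | b ∈ part []} mark W hA hAf isPart_nil (fits_part fits_nil)
      ?_ ?_ ?_ ?_, ?_, ?_⟩
    · rintro b _ (h | h) τ hs
      · exact ⟨t, ht, h τ hs⟩
      · exact ⟨t', ht', h τ hs⟩
    · intro s hs τ hsat
      by_cases h1 : s = t
      · subst h1
        rw [hWt]
        obtain ⟨y, hy, hys⟩ := (part_isPart t').1 τ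
        refine ⟨fun _ => (part_isPart Q).1 τ, fun _ => ⟨s ++ y, ⟨s, mem_part s, y, hy, rfl⟩,
          Or.inl fun τ' h => (sat_append.1 h).1, sat_append.2 ⟨hsat, hys⟩⟩⟩
      · by_cases h2 : s = t'
        · subst h2
          rw [hWt']
          obtain ⟨x, hx, hxs⟩ := (part_isPart t).1 τ
          refine ⟨fun _ => (part_isPart Q').1 τ, fun _ => ⟨x ++ s, ⟨x, hx, s, mem_part s, rfl⟩,
            Or.inr fun τ' h => (sat_append.1 h).2, sat_append.2 ⟨hxs, hsat⟩⟩⟩
        · rw [hWs s h1 h2]
          constructor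
          · rintro ⟨b, hb, hm, hbs⟩
            exact ⟨b, ⟨hb, hm⟩, hbs⟩
          · rintro ⟨b, ⟨hb, hm⟩, hbs⟩
            exact ⟨b, hb, hm, hbs⟩
    · intro s hs τ _ R hR R' hR' h3 h4
      by_cases h1 : s = t
      · subst h1
        rw [hWt] at hR hR'
        exact (part_isPart Q).2 τ R hR R' hR' h3 h4
      · by_cases h2 : s = t'
        · subst h2
          rw [hWt'] at hR hR'
          exact (part_isPart Q').2 τ R hR R' hR' h3 h4
        · rw [hWs s h1 h2] at hR hR'
          exact hA.2 τ R hR.1 R' hR'.1 h3 h4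
    · intro s hs R hR
      by_cases h1 : s = t
      · subst h1
        rw [hWt] at hR
        exact fits_part hQf R hR
      · by_cases h2 : s = t'
        · subst h2
          rw [hWt'] at hR
          exact fits_part hQf' R hR
        · rw [hWs s h1 h2] at hR
          exact hAf R hR.1
    · refine Or.inr (Or.inr (Or.inr ⟨t, ht, Q, ?_, htQ, rfl⟩))
      rw [hWt]
      exact mem_part Q
    · refine Or.inr (Or.inr (Or.inr ⟨t', ht', Q', ?_, htQ', rfl⟩))
      rw [hWt']
      exact mem_part Q'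

/-- Two incompatible local labels of one type are in a local exact cover, unless both are small
and have different colours. -/
theorem loc2 {I : Inst} (hI : Good I) {z : Key} (hz : z ∈ keys I) {a b : Lab} (ha : IsLoc I z a)
    (hb : IsLoc I z b) (hc : compat a b = false)
    (hs : ¬ ∃ c, ∃ P ∈ cubs I z, ∃ P' ∈ cubs I z, a = loc false c z P ∧
      b = loc false (!c) z P') :
    ∃ K, LE I z (fun _ => True) K ∧ a ∈ K ∧ b ∈ K := by
  rcases ha with ⟨n, c, P, hP, rfl⟩ | ⟨t, ht, Q, hQ, htQ, rfl⟩ <;>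
    rcases hb with ⟨n', c', P', hP', rfl⟩ | ⟨t', ht', Q', hQ', htQ', rfl⟩
  · refine ll hz hP hP' hc ?_
    rintro ⟨rfl, rfl, hne⟩
    apply hs
    refine ⟨c, P, hP, P', hP', rfl, ?_⟩
    have : c' = !c := by
      revert hne
      cases c <;> cases c' <;> simp
    rw [this]
  · exact ln hI hz hP ht' hQ' htQ' hc
  · rw [compat_comm] at hc
    obtain ⟨K, h1, h2, h3⟩ := ln hI hz hP' ht hQ htQ hc
    exact ⟨K, h1, h3, h2⟩
  · exact nn hI hz ht hQ htQ ht' hQ' htQ' hc

theorem kd_some {n : Bool} {c : Bool} {k : Option Bool} (h : Kd (n, some c) k) :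
    (k = none ∧ n = true) ∨ k = some c := by
  rcases h with h | ⟨c', h, h'⟩
  · exact Or.inl h
  · right
    simp only [Option.some.injEq] at h'
    rw [h, h']

/-- Every local label is in a local exact cover. -/
theorem loc1 {I : Inst} (hI : Good I) {z : Key} (hz : z ∈ keys I) {a : Lab} (ha : IsLoc I z a) :
    ∃ K, LE I z (fun _ => True) K ∧ a ∈ K := by
  rcases ha with ⟨n, c, P, hP, rfl⟩ | ⟨t, ht, Q, hQ, htQ, rfl⟩
  · obtain ⟨K, h1, h2, _⟩ := ll hz (n := n) (c := c) (n' := !n) (c' := !c) hP nil_mem_cubs (by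
      rw [← Bool.not_eq_true, compat_iff]
      rintro ⟨⟨k, h1, h2⟩, _⟩
      rcases kd_some h1 with ⟨h3, h4⟩ | h3 <;> rcases kd_some h2 with ⟨h5, h6⟩ | h5
      · rw [h4] at h6; simp at h6
      · rw [h3] at h5; simp at h5
      · rw [h3] at h5; simp at h5
      · exact no_marks h3 h5) (by
      rintro ⟨h1, h2, _⟩
      rw [h1] at h2
      simp at h2)
    exact ⟨K, h1, h2⟩
  · obtain ⟨K, h1, _, h2⟩ := ln hI hz (n := false) (c := true) nil_mem_cubs ht hQ htQ (by
      rw [← Bool.not_eq_true, compat_iff]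
      rintro ⟨⟨k, h1, h2⟩, _⟩
      rcases kd_some h1 with ⟨_, h4⟩ | h3
      · simp at h4
      · rcases h2 with ⟨h5, _⟩ | ⟨c, h5, h6⟩
        · rw [h3] at h5; simp at h5
        · simp [nl] at h6)
    exact ⟨K, h1, h2⟩

end Pool.Agent.Y650.TH
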