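import Pool.Agent.Y650.TH.G3

/-!
# Every edge but one lies in a strong clique, and the exceptional edge decides
-/

set_option autoImplicit false

namespace Pool.Agent.Y650.TH

open Pool.Agent.NPC Pool.Agent.H622R2

theorem cv_spec {X : List Key} {σ : St} : cv (spec X) σ ↔ σ.k = none ∧ σ.z ∈ X := by
  unfold cv Kd spec
  simp [sat_nil]

theorem cv_glob {I : Inst} {c : Bool} {σ : St} :
    cv (glob I c) σ ↔ σ.k = some c ∧ σ.z ∈ keys I := by
  unfold cv Kd glob
  simp only [Bool.false_eq_true, and_false, false_or, Option.some.injEq, sat_nil, reduceCtorEq,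
    IsEmpty.forall_iff, implies_true, and_true]
  refine and_congr_left fun _ => ?_
  constructor
  · rintro ⟨c', h, h'⟩
    rw [h, h']
  · intro h
    exact ⟨c, h, rfl⟩

/-- The kinds which have to be covered locally. -/
def need (D : Set (List Key)) (G : Set Bool) (z : Key) (k : Option Bool) : Prop :=
  (k = none → ∀ X ∈ D, z ∉ X) ∧ ∀ c, k = some c → c ∉ G

theorem LE.congr {I : Inst} {z : Key} {nd nd' : Option Bool → Prop} {K : Set Lab}
    (h : LE I z nd K) (e : ∀ k, nd k ↔ nd' k) : LE I z nd' K :=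
  ⟨h.mem, fun σ h1 h2 h3 => h.ex σ h1 h2 ((e _).2 h3), fun σ a ha hcv => (e _).1 (h.only σ a ha hcv),
    h.un⟩

/-- The two labels are in a strong clique. -/
def Cov (I : Inst) (a b : Lab) : Prop := ∃ C, IsStrongClique (GG I) C ∧
  ∀ x : {x // x ∈ ddup (labs I)}, x.1 = a ∨ x.1 = b → x ∈ C

theorem Cov.symm {I : Inst} {a b : Lab} (h : Cov I a b) : Cov I b a := by
  obtain ⟨C, h1, h2⟩ := h
  exact ⟨C, h1, fun x hx => h2 x hx.symm⟩

/-- Gluing local exact covers. -/
theorem assemble {I : Inst} (hI : Good I) (D : Set (List Key)) (hD : ∀ X ∈ D, X ∈ I.2)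
    (hDd : ∀ X ∈ D, ∀ Y ∈ D, X ≠ Y → ∀ z ∈ X, z ∉ Y) (G : Set Bool) (a b : Lab)
    (L : Key → Lab → Prop)
    (hW : ∀ w, w = a ∨ w = b → (∃ X ∈ D, w = spec X) ∨ (∃ c ∈ G, w = glob I c) ∨
      ∃ z ∈ keys I, L z w)
    (h : ∀ z ∈ keys I, ∃ K, LE I z (need D G z) K ∧ ∀ w, L z w → w ∈ K) : Cov I a b := by
  choose K hK hKW using h
  set T : Set Lab := {w | (∃ X ∈ D, w = spec X) ∨ (∃ c ∈ G, w = glob I c) ∨
    ∃ z, ∃ hz : z ∈ keys I, w ∈ K z hz} with hT
  refine ⟨{x | x.1 ∈ T}, strong_of_exact hI T ?_ ?_ ?_, ?_⟩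
  · rintro w (⟨X, hX, rfl⟩ | ⟨c, _, rfl⟩ | ⟨z, hz, hw⟩)
    · exact spec_mem (hD X hX)
    · exact glob_mem c
    · exact ((hK z hz).mem w hw).1
  · intro σ hσ
    by_cases hn : need D G σ.z σ.k
    · obtain ⟨w, hw, hcv⟩ := (hK σ.z hσ.1).ex σ hσ rfl hn
      exact ⟨w, Or.inr (Or.inr ⟨σ.z, hσ.1, hw⟩), hcv⟩
    · unfold need at hn
      rw [not_and_or] at hn
      push Not at hn
      rcases hn with ⟨hk, X, hX, hzX⟩ | ⟨c, hk, hc⟩
      · exact ⟨spec X, Or.inl ⟨X, hX, rfl⟩, cv_spec.2 ⟨hk, hzX⟩⟩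
      · exact ⟨glob I c, Or.inr (Or.inl ⟨c, hc, rfl⟩), cv_glob.2 ⟨hk, hσ.1⟩⟩
  · have hloc : ∀ σ : St, ∀ z, ∀ hz : z ∈ keys I, ∀ w ∈ K z hz, cv w σ →
        σ.z = z ∧ need D G z σ.k := by
      intro σ z hz w hw hcv
      have h1 := hcv.2.1
      rw [((hK z hz).mem w hw).2, List.mem_singleton] at h1
      exact ⟨h1, (hK z hz).only σ w hw hcv⟩
    rintro σ hσ w hw w' hw' h1 h2
    rcases hw with ⟨X, hX, rfl⟩ | ⟨c, hc, rfl⟩ | ⟨z, hz, hw⟩ <;>
      rcases hw' with ⟨X', hX', rfl⟩ | ⟨c', hc', rfl⟩ | ⟨z', hz', hw'⟩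
    · rw [cv_spec] at h1 h2
      by_contra hne
      exact hDd X hX X' hX' (fun h => hne (by rw [h])) σ.z h1.2 h2.2
    · rw [cv_spec] at h1
      rw [cv_glob] at h2
      rw [h1.1] at h2
      simp at h2
    · rw [cv_spec] at h1
      obtain ⟨h3, h4⟩ := hloc σ z' hz' w' hw' h2
      rw [← h3] at h4
      exact absurd h1.2 (h4.1 h1.1 X hX)
    · rw [cv_glob] at h1
      rw [cv_spec] at h2
      rw [h2.1] at h1
      simp at h1
    · rw [cv_glob] at h1 h2
      have h3 := h1.1
      rw [h2.1] at h3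
      rw [Option.some.inj h3]
    · rw [cv_glob] at h1
      obtain ⟨h3, h4⟩ := hloc σ z' hz' w' hw' h2
      exact absurd hc (h4.2 c h1.1)
    · rw [cv_spec] at h2
      obtain ⟨h3, h4⟩ := hloc σ z hz w hw h1
      rw [← h3] at h4
      exact absurd h2.2 (h4.1 h2.1 X' hX')
    · rw [cv_glob] at h2
      obtain ⟨h3, h4⟩ := hloc σ z hz w hw h1
      exact absurd hc' (h4.2 c' h2.1)
    · obtain ⟨h3, _⟩ := hloc σ z hz w hw h1
      obtain ⟨h4, _⟩ := hloc σ z' hz' w' hw' h2
      have h5 : z = z' := by rw [← h3, h4]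
      subst h5
      exact (hK z hz).un σ hσ w hw w' hw' h1 h2
  · intro x hx
    rcases hW x.1 hx with h | h | ⟨z, hz, h⟩
    · exact Or.inl h
    · exact Or.inr (Or.inl h)
    · exact Or.inr (Or.inr ⟨z, hz, hKW z hz x.1 h⟩)

/-- At types which are covered. -/
theorem fill_cov {I : Inst} {z : Key} (hz : z ∈ keys I) (D : Set (List Key)) (G : Set Bool)
    (hX : ∃ X ∈ D, z ∈ X) (A : Bool → Set Cube) (hA : ∀ c, IsPart (A c))
    (hAf : ∀ c, ∀ b ∈ A c, Fits I z b) : ∃ K, LE I z (need D G z) K ∧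
      ∀ c, c ∉ G → ∀ b ∈ A c, clash b b = false → loc false c z b ∈ K := by
  refine ⟨_, (smalls hz (fun c => c ∉ G) A hA hAf).congr ?_, ?_⟩
  · intro k
    constructor
    · rintro ⟨c, rfl, hc⟩
      refine ⟨fun h => by simp at h, fun c' h => ?_⟩
      rw [← Option.some.inj h]
      exact hc
    · intro hn
      rcases k with _ | c
      · obtain ⟨X, hX, hzX⟩ := hX
        exact absurd hzX (hn.1 rfl X hX)
      · exact ⟨c, rfl, hn.2 c rfl⟩
  · intro c hc b hb hcl
    exact ⟨c, hc, b, hb, hcl, rfl⟩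

/-- Filling the other types. -/
theorem fill {I : Inst} {z : Key} (hz : z ∈ keys I) (D : Set (List Key)) (G : Set Bool)
    (h : (∃ X ∈ D, z ∈ X) ∨ G = ∅ ∨ ∃ c, G = {c}) : ∃ K, LE I z (need D G z) K := by
  by_cases hX : ∃ X ∈ D, z ∈ X
  · obtain ⟨K, hK, _⟩ := fill_cov hz D G hX (fun _ => {b | b ∈ part []}) (fun _ => isPart_nil)
      (fun _ => fits_part fits_nil)
    exact ⟨K, hK⟩
  · push Not at hX
    rcases h with ⟨X, h1, h2⟩ | rfl | ⟨c, rfl⟩
    · exact absurd h2 (hX X h1)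
    · exact ⟨_, (coloured hz {b | b ∈ part []} (fun _ => true) isPart_nil
        (fits_part fits_nil)).congr fun k => ⟨fun _ => ⟨fun _ => hX, fun c _ => by simp⟩,
          fun _ => trivial⟩⟩
    · have h1 := coloured hz {b | b ∈ part []} (fun _ => !c) isPart_nil (fits_part fits_nil)
      have h2 := LE.delete hz c h1 ⟨[], mem_part [], by simp [clash], Or.inr (by simp)⟩
      refine ⟨_, h2.congr fun k => ?_⟩
      constructor
      · intro h3
        refine ⟨fun _ => hX, fun c' hc' hcc => h3 ?_⟩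
        rw [hc', Set.mem_singleton_iff.1 hcc]
      · intro h3 h4
        exact h3.2 c h4 rfl

/-- One incompatible pair with a colour: both a local cover without the colour. -/
theorem cover_without {I : Inst} (hI : Good I) {z : Key} (hz : z ∈ keys I) {a : Lab} {c : Bool}
    (ha : IsLoc I z a) (hc : compat a (loc false c z []) = false)
    (hs : ∀ P, a ≠ loc false (!c) z P) :
    ∃ K, LE I z (fun k => k ≠ some c) K ∧ a ∈ K := by
  obtain ⟨K, h1, h2, h3⟩ := loc2 hI hz ha (b := loc false c z [])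
    (Or.inl ⟨false, c, [], nil_mem_cubs, rfl⟩) hc (by
      rintro ⟨c', P, _, P', _, h4, h5⟩
      have h6 : c = !c' := by
        simp only [loc, Prod.mk.injEq, Option.some.injEq] at h5
        exact h5.1.2
      apply hs P
      rw [h4, h6, Bool.not_not])
  refine ⟨_, LE.delete hz c h1 h3, h2, ?_⟩
  intro h4
  rw [Set.mem_singleton_iff] at h4
  subst h4
  rw [compat_self hI (loc_mem hz nil_mem_cubs)] at hc
  simp at hc

theorem pair_disj {X Y : List Key} (h : ∀ z ∈ X, z ∉ Y) :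
    ∀ A ∈ ({X, Y} : Set (List Key)), ∀ B ∈ ({X, Y} : Set (List Key)), A ≠ B →
      ∀ z ∈ A, z ∉ B := by
  intro A hA B hB hne z hz hz'
  rcases hA with rfl | rfl <;> rcases hB with rfl | rfl
  · exact hne rfl
  · exact h z hz hz'
  · exact h z hz' hz
  · exact hne rfl

theorem single_disj {X : List Key} :
    ∀ A ∈ ({X} : Set (List Key)), ∀ B ∈ ({X} : Set (List Key)), A ≠ B → ∀ z ∈ A, z ∉ B := by
  intro A hA B hB hne
  rw [Set.mem_singleton_iff] at hA hB
  exact absurd (hA.trans hB.symm) hne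

theorem empty_disj :
    ∀ A ∈ (∅ : Set (List Key)), ∀ B ∈ (∅ : Set (List Key)), A ≠ B → ∀ z ∈ A, z ∉ B := by
  intro A hA
  simp at hA

/-! ### The kinds of edges -/

theorem edge_glob_glob {I : Inst} (hI : Good I) (hcov : Cover I) (c c' : Bool) :
    Cov I (glob I c) (glob I c') := by
  obtain ⟨D, hD, hDd, hz⟩ := hcov
  refine assemble hI D hD hDd Set.univ _ _ (fun _ _ => False) ?_ ?_
  · rintro w (rfl | rfl)
    · exact Or.inr (Or.inl ⟨c, trivial, rfl⟩)
    · exact Or.inr (Or.inl ⟨c', trivial, rfl⟩)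
  · intro z hzk
    by_cases hX : ∃ X ∈ D, z ∈ X
    · obtain ⟨K, hK⟩ := fill hzk D Set.univ (Or.inl hX)
      exact ⟨K, hK, fun w h => h.elim⟩
    · have hall := (hz z hzk).resolve_left hX
      push Not at hX
      refine ⟨{a | ∃ t ∈ bad I z, clash t t = false ∧ a = nl z t []}, ?_, fun w h => h.elim⟩
      constructor
      · rintro a ⟨t, ht, hc, rfl⟩
        exact ⟨nl_mem hzk ht nil_mem_cubs (by rw [List.append_nil]; exact hc), rfl⟩
      · intro σ hσ hσz hn
        have hk : σ.k = none := by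
          by_contra h
          obtain ⟨d, hd⟩ := Option.ne_none_iff_exists'.1 h
          exact hn.2 d hd trivial
        rcases hσ.2 hk with ⟨_, h2⟩ | ⟨t, ht, h1, h2⟩
        · obtain ⟨t, ht, h3⟩ := hall σ.τ
          rw [hσz] at h2
          exact absurd h3 (h2 t ht)
        · rw [hσz] at ht
          exact ⟨nl z t [], ⟨t, ht, not_clash_of_sat h2 h2, rfl⟩,
            cv_nl.2 ⟨hk, hσz, ⟨h2, sat_nil⟩, h1⟩⟩
      · rintro σ a ⟨t, _, _, rfl⟩ h
        rw [cv_nl] at h
        refine ⟨fun _ => hX, fun d hd => ?_⟩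
        rw [h.1] at hd
        simp at hd
      · rintro σ _ a ⟨t, _, _, rfl⟩ b ⟨t', _, _, rfl⟩ h h'
        rw [cv_nl] at h h'
        have h3 := h.2.2.2
        rw [h'.2.2.2] at h3
        rw [Option.some.inj h3]

theorem edge_glob_spec {I : Inst} (hI : Good I) (c : Bool) {X : List Key} (hX : X ∈ I.2) :
    Cov I (glob I c) (spec X) := by
  refine assemble hI {X} (fun Y hY => by rw [Set.mem_singleton_iff.1 hY]; exact hX) single_disj
    {c} _ _ (fun _ _ => False) ?_ ?_
  · rintro w (rfl | rfl)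
    · exact Or.inr (Or.inl ⟨c, rfl, rfl⟩)
    · exact Or.inl ⟨X, rfl, rfl⟩
  · intro z hz
    obtain ⟨K, hK⟩ := fill hz {X} {c} (Or.inr (Or.inr ⟨c, rfl⟩))
    exact ⟨K, hK, fun w h => h.elim⟩

theorem edge_spec_spec {I : Inst} (hI : Good I) {X Y : List Key} (hX : X ∈ I.2) (hY : Y ∈ I.2)
    (hc : compat (spec X) (spec Y) = false) : Cov I (spec X) (spec Y) := by
  have hd : ∀ z ∈ X, z ∉ Y := by
    intro z hz hz'
    rw [← Bool.not_eq_true] at hc
    apply hc
    rw [compat_iff]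
    exact ⟨⟨none, Or.inl ⟨rfl, rfl⟩, Or.inl ⟨rfl, rfl⟩⟩, ⟨z, hz, hz'⟩,
      by simp [spec, clash], fun t t' h => by simp [spec] at h⟩
  refine assemble hI {X, Y} ?_ (pair_disj hd) ∅ _ _ (fun _ _ => False) ?_ ?_
  · rintro Z (rfl | rfl)
    · exact hX
    · exact hY
  · rintro w (rfl | rfl)
    · exact Or.inl ⟨X, Or.inl rfl, rfl⟩
    · exact Or.inl ⟨Y, Or.inr rfl, rfl⟩
  · intro z hz
    obtain ⟨K, hK⟩ := fill hz {X, Y} ∅ (Or.inr (Or.inl rfl))
    exact ⟨K, hK, fun w h => h.elim⟩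

theorem need_empty {z : Key} {D : Set (List Key)} (h : ∀ X ∈ D, z ∉ X) (k : Option Bool) :
    True ↔ need D ∅ z k := ⟨fun _ => ⟨fun _ => h, fun c _ => by simp⟩, fun _ => trivial⟩

theorem need_single {z : Key} {D : Set (List Key)} {c : Bool} (h : ∀ X ∈ D, z ∉ X)
    (k : Option Bool) : k ≠ some c ↔ need D {c} z k := by
  constructor
  · intro h3
    refine ⟨fun _ => h, fun c' hc' hcc => h3 ?_⟩
    rw [hc', Set.mem_singleton_iff.1 hcc]
  · intro h3 h4
    exact h3.2 c h4 rfl

theorem edge_glob_loc {I : Inst} (hI : Good I) (c : Bool) {z : Key} (hz : z ∈ keys I) {a : Lab}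
    (ha : IsLoc I z a) (hc : compat (glob I c) a = false) : Cov I (glob I c) a := by
  by_cases hs : ∃ P ∈ cubs I z, a = loc false (!c) z P
  · obtain ⟨P, hP, rfl⟩ := hs
    obtain ⟨hPf, hPc⟩ := mem_cubs'.1 hP
    obtain ⟨X, hX, hzX⟩ := hI.cov z hz
    refine assemble hI {X} (fun Y hY => by rw [Set.mem_singleton_iff.1 hY]; exact hX) single_disj
      {c} _ _ (fun z' w => z' = z ∧ w = loc false (!c) z P) ?_ ?_
    · rintro w (rfl | rfl)
      · exact Or.inr (Or.inl ⟨c, rfl, rfl⟩)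
      · exact Or.inr (Or.inr ⟨z, hz, rfl, rfl⟩)
    · intro z' hz'
      by_cases hzz : z' = z
      · subst hzz
        obtain ⟨K, h1, h2⟩ := fill_cov hz' {X} {c} ⟨X, rfl, hzX⟩ (fun _ => {b | b ∈ part P})
          (fun _ => part_isPart P) (fun _ => fits_part hPf)
        refine ⟨K, h1, ?_⟩
        rintro w ⟨_, rfl⟩
        exact h2 _ (by simp) P (mem_part P) hPc
      · obtain ⟨K, hK⟩ := fill hz' {X} {c} (Or.inr (Or.inr ⟨c, rfl⟩))
        exact ⟨K, hK, fun w h => absurd h.1 hzz⟩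
  · have hc1 : compat a (loc false c z []) = false := by
      rw [← Bool.not_eq_true] at hc ⊢
      intro h
      apply hc
      rw [compat_iff] at h ⊢
      obtain ⟨⟨k, h1, h2⟩, h3, h4, h5⟩ := h
      refine ⟨⟨k, h2, h1⟩, ?_, ?_, fun t t' h h' => by simp [glob] at h⟩
      · obtain ⟨z', h6, h7⟩ := h3
        simp only [loc, List.mem_singleton] at h7
        rw [h7] at h6
        exact ⟨z, hz, h6⟩
      · simp [glob, clash]
    obtain ⟨K, h1, h2⟩ := cover_without hI hz ha hc1 (by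
      intro P hP
      apply hs
      refine ⟨P, ?_, hP⟩
      rcases ha with ⟨n, d, Q, hQ, rfl⟩ | ⟨t, _, Q, _, _, rfl⟩
      · simp only [loc, Prod.mk.injEq] at hP
        rw [← hP.2.2.1]
        exact hQ
      · simp [nl, loc] at hP)
    refine assemble hI ∅ (fun Y hY => by simp at hY) empty_disj {c} _ _
      (fun z' w => z' = z ∧ w = a) ?_ ?_
    · rintro w (rfl | rfl)
      · exact Or.inr (Or.inl ⟨c, rfl, rfl⟩)
      · exact Or.inr (Or.inr ⟨z, hz, rfl, rfl⟩)
    · intro z' hz'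
      by_cases hzz : z' = z
      · subst hzz
        refine ⟨K, h1.congr (need_single (by simp)), ?_⟩
        rintro w ⟨_, rfl⟩
        exact h2
      · obtain ⟨K, hK⟩ := fill hz' ∅ {c} (Or.inr (Or.inr ⟨c, rfl⟩))
        exact ⟨K, hK, fun w h => absurd h.1 hzz⟩

theorem edge_spec_loc {I : Inst} (hI : Good I) {X : List Key} (hX : X ∈ I.2) {z : Key}
    (hz : z ∈ keys I) {a : Lab} (ha : IsLoc I z a) (hc : compat (spec X) a = false) :
    Cov I (spec X) a := by
  have hsub : ∀ Y ∈ ({X} : Set (List Key)), Y ∈ I.2 :=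
    fun Y hY => by rw [Set.mem_singleton_iff.1 hY]; exact hX
  refine assemble hI {X} hsub single_disj ∅ _ _ (fun z' w => z' = z ∧ w = a) ?_ ?_
  · rintro w (rfl | rfl)
    · exact Or.inl ⟨X, rfl, rfl⟩
    · exact Or.inr (Or.inr ⟨z, hz, rfl, rfl⟩)
  · intro z' hz'
    by_cases hzz : z' = z
    · subst hzz
      by_cases hzX : z' ∈ X
      · rcases ha with ⟨n, c, P, hP, rfl⟩ | ⟨t, _, Q, _, _, rfl⟩
        · obtain ⟨hPf, hPc⟩ := mem_cubs'.1 hP
          cases n with
          | true =>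
            rw [← Bool.not_eq_true, compat_iff] at hc
            exfalso
            apply hc
            exact ⟨⟨none, Or.inl ⟨rfl, rfl⟩, Or.inl ⟨rfl, rfl⟩⟩, ⟨z', hzX, by simp [loc]⟩,
              by simp [spec, clash], fun t t' h => by simp [spec] at h⟩
          | false =>
            obtain ⟨K, h1, h2⟩ := fill_cov hz' {X} ∅ ⟨X, rfl, hzX⟩ (fun _ => {b | b ∈ part P})
              (fun _ => part_isPart P) (fun _ => fits_part hPf)
            refine ⟨K, h1, ?_⟩
            rintro w ⟨_, rfl⟩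
            exact h2 _ (by simp) P (mem_part P) hPc
        · rw [← Bool.not_eq_true, compat_iff] at hc
          exfalso
          apply hc
          exact ⟨⟨none, Or.inl ⟨rfl, rfl⟩, Or.inl ⟨rfl, rfl⟩⟩, ⟨z', hzX, by simp [nl]⟩,
            by simp [spec, clash], fun t t' h => by simp [spec] at h⟩
      · obtain ⟨K, h1, h2⟩ := loc1 hI hz' ha
        refine ⟨K, h1.congr (need_empty (by simpa using hzX)), ?_⟩
        rintro w ⟨_, rfl⟩
        exact h2
    · obtain ⟨K, hK⟩ := fill hz' {X} ∅ (Or.inr (Or.inl rfl))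
      exact ⟨K, hK, fun w h => absurd h.1 hzz⟩

theorem edge_loc_loc {I : Inst} (hI : Good I) {z z' : Key} (hz : z ∈ keys I) (hz' : z' ∈ keys I)
    {a b : Lab} (ha : IsLoc I z a) (hb : IsLoc I z' b) (hc : compat a b = false) :
    Cov I a b := by
  by_cases hzz : z = z'
  · subst hzz
    by_cases hs : ∃ c, ∃ P ∈ cubs I z, ∃ P' ∈ cubs I z, a = loc false c z P ∧
        b = loc false (!c) z P'
    · obtain ⟨c, P, hP, P', hP', rfl, rfl⟩ := hs
      obtain ⟨hPf, hPc⟩ := mem_cubs'.1 hP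
      obtain ⟨hPf', hPc'⟩ := mem_cubs'.1 hP'
      obtain ⟨X, hX, hzX⟩ := hI.cov z hz
      refine assemble hI {X} (fun Y hY => by rw [Set.mem_singleton_iff.1 hY]; exact hX)
        single_disj ∅ _ _ (fun w w' => w = z ∧ (w' = loc false c z P ∨ w' = loc false (!c) z P'))
        ?_ ?_
      · rintro w (rfl | rfl)
        · exact Or.inr (Or.inr ⟨z, hz, rfl, Or.inl rfl⟩)
        · exact Or.inr (Or.inr ⟨z, hz, rfl, Or.inr rfl⟩)
      · intro z' hz'
        by_cases hzz : z' = z
        · subst hzz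
          obtain ⟨K, h1, h2⟩ := fill_cov hz' {X} ∅ ⟨X, rfl, hzX⟩
            (fun d => if d = c then {b | b ∈ part P} else {b | b ∈ part P'})
            (fun d => by
              by_cases h : d = c
              · simp only [if_pos h]; exact part_isPart P
              · simp only [if_neg h]; exact part_isPart P')
            (fun d => by
              by_cases h : d = c
              · simp only [if_pos h]; exact fits_part hPf
              · simp only [if_neg h]; exact fits_part hPf')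
          refine ⟨K, h1, ?_⟩
          rintro w ⟨_, rfl | rfl⟩
          · refine h2 c (by simp) P ?_ hPc
            simp only [if_true]
            exact mem_part P
          · refine h2 (!c) (by simp) P' ?_ hPc'
            have h : ¬ (!c) = c := by cases c <;> simp
            simp only [if_neg h]
            exact mem_part P'
        · obtain ⟨K, hK⟩ := fill hz' {X} ∅ (Or.inr (Or.inl rfl))
          exact ⟨K, hK, fun w h => absurd h.1 hzz⟩
    · obtain ⟨K, h1, h2, h3⟩ := loc2 hI hz ha hb hc hs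
      refine assemble hI ∅ (fun Y hY => by simp at hY) empty_disj ∅ _ _
        (fun w w' => w = z ∧ (w' = a ∨ w' = b)) ?_ ?_
      · rintro w (rfl | rfl)
        · exact Or.inr (Or.inr ⟨z, hz, rfl, Or.inl rfl⟩)
        · exact Or.inr (Or.inr ⟨z, hz, rfl, Or.inr rfl⟩)
      · intro z' hz'
        by_cases hzz : z' = z
        · subst hzz
          refine ⟨K, h1.congr (need_empty (by simp)), ?_⟩
          rintro w ⟨_, rfl | rfl⟩
          · exact h2
          · exact h3
        · obtain ⟨K, hK⟩ := fill hz' ∅ ∅ (Or.inr (Or.inl rfl))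
          exact ⟨K, hK, fun w h => absurd h.1 hzz⟩
  · obtain ⟨K, h1, h2⟩ := loc1 hI hz ha
    obtain ⟨K', h1', h2'⟩ := loc1 hI hz' hb
    refine assemble hI ∅ (fun Y hY => by simp at hY) empty_disj ∅ _ _
      (fun w w' => (w = z ∧ w' = a) ∨ (w = z' ∧ w' = b)) ?_ ?_
    · rintro w (rfl | rfl)
      · exact Or.inr (Or.inr ⟨z, hz, Or.inl ⟨rfl, rfl⟩⟩)
      · exact Or.inr (Or.inr ⟨z', hz', Or.inr ⟨rfl, rfl⟩⟩)
    · intro y hy
      by_cases h3 : y = z
      · subst h3
        refine ⟨K, h1.congr (need_empty (by simp)), ?_⟩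
        rintro w (⟨_, rfl⟩ | ⟨h, _⟩)
        · exact h2
        · exact absurd h hzz
      · by_cases h4 : y = z'
        · subst h4
          refine ⟨K', h1'.congr (need_empty (by simp)), ?_⟩
          rintro w (⟨h, _⟩ | ⟨_, rfl⟩)
          · exact absurd h h3
          · exact h2'
        · obtain ⟨K, hK⟩ := fill hy ∅ ∅ (Or.inr (Or.inl rfl))
          exact ⟨K, hK, fun w h => by
            rcases h with h | h
            · exact absurd h.1 h3
            · exact absurd h.1 h4⟩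

/-- The graph is correct. -/
theorem graph_correct : S_GRAPH := by
  intro I hI
  have e := matIso (ddup (labs I)) (fun a b => !(compat a b)) (ddup_nodup _)
  have key : Cover I ↔ EdgeStrong (GG I) := by
    constructor
    · intro hcov x y hxy
      rw [GG_adj hI] at hxy
      suffices h : Cov I x.1 y.1 by
        obtain ⟨C, h1, h2⟩ := h
        exact ⟨C, h1, h2 x (Or.inl rfl), h2 y (Or.inr rfl)⟩
      have hx := mem_labs.1 ((mem_ddup _ _).1 x.2)
      have hy := mem_labs.1 ((mem_ddup _ _).1 y.2)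
      revert hx hy hxy
      generalize x.1 = a
      generalize y.1 = b
      intro hxy hx hy
      have hyx : compat b a = false := by rw [compat_comm]; exact hxy
      have hcases : ∀ a : Lab, ((∃ c, a = glob I c) ∨
          (∃ X ∈ I.2, a = spec X) ∨ (∃ z ∈ keys I, ∃ n c, ∃ P ∈ cubs I z, a = loc n c z P) ∨
          (∃ z ∈ keys I, ∃ t ∈ bad I z, ∃ Q ∈ cubs I z, clash (t ++ Q) (t ++ Q) = false ∧
          a = nl z t Q)) → (∃ c, a = glob I c) ∨ (∃ X ∈ I.2, a = spec X) ∨
          ∃ z ∈ keys I, IsLoc I z a := by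
        rintro a (h | h | ⟨z, hz, h⟩ | ⟨z, hz, h⟩)
        · exact Or.inl h
        · exact Or.inr (Or.inl h)
        · exact Or.inr (Or.inr ⟨z, hz, Or.inl h⟩)
        · exact Or.inr (Or.inr ⟨z, hz, Or.inr h⟩)
      rcases hcases a hx with ⟨c, rfl⟩ | ⟨X, hX, rfl⟩ | ⟨z, hz, ha⟩ <;>
        rcases hcases b hy with ⟨c', rfl⟩ | ⟨X', hX', rfl⟩ | ⟨z', hz', hb⟩
      · exact edge_glob_glob hI hcov c c'
      · exact edge_glob_spec hI c hX'
      · exact edge_glob_loc hI c hz' hb hxy
      · exact (edge_glob_spec hI c' hX).symm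
      · exact edge_spec_spec hI hX hX' hxy
      · exact edge_spec_loc hI hX hz' hb hxy
      · exact (edge_glob_loc hI c' hz ha hyx).symm
      · exact (edge_spec_loc hI hX' hz ha hyx).symm
      · exact edge_loc_loc hI hz hz' ha hb hxy
    · intro h
      obtain ⟨C, h1, h2, h3⟩ := h ⟨glob I true, (mem_ddup _ _).2 (glob_mem true)⟩
        ⟨glob I false, (mem_ddup _ _).2 (glob_mem false)⟩ (by
          rw [GG_adj hI, ← Bool.not_eq_true, compat_iff]
          rintro ⟨⟨k, h1, h2⟩, _⟩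
          rcases kd_some h1 with ⟨_, h⟩ | h
          · simp at h
          · rcases kd_some h2 with ⟨_, h'⟩ | h'
            · simp at h'
            · rw [h] at h'
              simp at h')
      refine cover_of_strong hI h1 fun c => ?_
      cases c
      · exact ⟨_, h3, rfl⟩
      · exact ⟨_, h2, rfl⟩
  rw [key]
  exact ⟨fun h => EdgeStrong.of_iso e.symm h, fun h => EdgeStrong.of_iso e h⟩

end Pool.Agent.Y650.TH
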