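import Pool.Agent.Y650.TH.Defs

/-!
# From pairs of formulas to the covering problem
-/

set_option autoImplicit false

namespace Pool.Agent.Y650.TH

open Pool.Agent.NPC Pool.Agent.H622R2

/-- The negated literal. -/
def neg (l : Lit) : Lit := (!l.1, l.2)

theorem neg_neg' (l : Lit) : neg (neg l) = l := by
  obtain ⟨b, v⟩ := l
  simp [neg]

theorem neg_ne (l : Lit) : neg l ≠ l := by
  obtain ⟨b, v⟩ := l
  simp [neg]

/-- The occurrences of literals in clauses. -/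
def occ (φ : List Cl) : List (ℕ × Lit) :=
  φ.zipIdx.flatMap fun p => [(p.2, p.1.1), (p.2, p.1.2.1), (p.2, p.1.2.2)]

theorem mem_occ {φ : List Cl} {k : ℕ} {l : Lit} : (k, l) ∈ occ φ ↔
    ∃ c, φ[k]? = some c ∧ (l = c.1 ∨ l = c.2.1 ∨ l = c.2.2) := by
  unfold occ
  rw [List.mem_flatMap]
  constructor
  · rintro ⟨⟨c, k'⟩, h, h'⟩
    rw [List.mk_mem_zipIdx_iff_getElem?] at h
    simp only [List.mem_cons, Prod.mk.injEq, List.not_mem_nil, or_false] at h'
    refine ⟨c, ?_, ?_⟩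
    · rcases h' with h' | h' | h' <;> rw [h'.1] <;> exact h
    · rcases h' with h' | h' | h'
      · exact Or.inl h'.2
      · exact Or.inr (Or.inl h'.2)
      · exact Or.inr (Or.inr h'.2)
  · rintro ⟨c, h, h'⟩
    refine ⟨(c, k), List.mk_mem_zipIdx_iff_getElem?.2 h, ?_⟩
    simp only [List.mem_cons, Prod.mk.injEq, List.not_mem_nil, or_false, true_and]
    exact h'

theorem occ_lt {φ : List Cl} {k : ℕ} {l : Lit} (h : (k, l) ∈ occ φ) : k < φ.length := by
  obtain ⟨c, hc, _⟩ := mem_occ.1 h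
  exact (List.getElem?_eq_some_iff.1 hc).1

/-- The name of a conflict. -/
def kD (i k k' : ℕ) (l : Lit) : Key := [4, i, k, k', l.2, l.1.toNat]

theorem kD_inj {i k k' i₁ k₁ k₁' : ℕ} {l l₁ : Lit} (h : kD i k k' l = kD i₁ k₁ k₁' l₁) :
    i = i₁ ∧ k = k₁ ∧ k' = k₁' ∧ l = l₁ := by
  obtain ⟨b, v⟩ := l
  obtain ⟨b₁, v₁⟩ := l₁
  simp only [kD, List.cons.injEq, and_true, true_and] at h
  obtain ⟨h1, h2, h3, h4, h5⟩ := h
  refine ⟨h1, h2, h3, ?_⟩
  rw [h4]
  cases b <;> cases b₁ <;> simp at h5 ⊢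

/-- The conflicts of a formula. -/
def confs (i : ℕ) (φ : List Cl) : List Key :=
  (occ φ).flatMap fun o => ((occ φ).filter fun o' => decide (o'.2 = neg o.2)).map fun o' =>
    kD i o.1 o'.1 o.2

theorem mem_confs {i : ℕ} {φ : List Cl} {x : Key} : x ∈ confs i φ ↔
    ∃ k k' l, (k, l) ∈ occ φ ∧ (k', neg l) ∈ occ φ ∧ x = kD i k k' l := by
  unfold confs
  simp only [List.mem_flatMap, List.mem_map, List.mem_filter, decide_eq_true_eq]
  constructor
  · rintro ⟨⟨k, l⟩, h, ⟨k', l'⟩, ⟨h', h2⟩, h3⟩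
    simp only at h2 h3
    subst h2
    exact ⟨k, k', l, h, h', h3.symm⟩
  · rintro ⟨k, k', l, h, h', h3⟩
    exact ⟨(k, l), h, (k', neg l), ⟨h', rfl⟩, h3.symm⟩

/-- The set which says that a mode is chosen. -/
def hS (i : ℕ) : List Key := [[0], [1, i]]

/-- The set which says that a mode is not chosen. -/
def uS (i : ℕ) (φ : List Cl) : List Key :=
  [1, i] :: [2, i] :: ((φ.zipIdx.map fun p => [3, i, p.2]) ++ confs i φ)

/-- The set of an occurrence. -/
def cS (i : ℕ) (φ : List Cl) (k : ℕ) (l : Lit) : List Key :=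
  [3, i, k] :: ((((occ φ).filter fun o => decide (o.2 = neg l)).map fun o => kD i k o.1 l) ++
    (((occ φ).filter fun o => decide (o.2 = neg l)).map fun o => kD i o.1 k o.2))

theorem mem_hS {i : ℕ} {x : Key} : x ∈ hS i ↔ x = [0] ∨ x = [1, i] := by
  simp [hS]

theorem mem_uS {i : ℕ} {φ : List Cl} {x : Key} : x ∈ uS i φ ↔
    x = [1, i] ∨ x = [2, i] ∨ (∃ k < φ.length, x = [3, i, k]) ∨ x ∈ confs i φ := by
  unfold uS
  rw [List.mem_cons, List.mem_cons, List.mem_append, List.mem_map]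
  refine or_congr_right (or_congr_right (or_congr_left ?_))
  constructor
  · rintro ⟨⟨c, k⟩, h, rfl⟩
    rw [List.mk_mem_zipIdx_iff_getElem?] at h
    exact ⟨k, (List.getElem?_eq_some_iff.1 h).1, rfl⟩
  · rintro ⟨k, h, rfl⟩
    exact ⟨(φ[k], k), List.mk_mem_zipIdx_iff_getElem?.2 (List.getElem?_eq_getElem h), rfl⟩

theorem mem_cS {i : ℕ} {φ : List Cl} {k : ℕ} {l : Lit} {x : Key} : x ∈ cS i φ k l ↔
    x = [3, i, k] ∨ ∃ k', (k', neg l) ∈ occ φ ∧ (x = kD i k k' l ∨ x = kD i k' k (neg l)) := by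
  unfold cS
  simp only [List.mem_cons, List.mem_append, List.mem_map, List.mem_filter, decide_eq_true_eq]
  refine or_congr_right ?_
  constructor
  · rintro (⟨⟨k', l'⟩, ⟨h, h2⟩, h3⟩ | ⟨⟨k', l'⟩, ⟨h, h2⟩, h3⟩)
    · simp only at h2 h3
      subst h2
      exact ⟨k', h, Or.inl h3.symm⟩
    · simp only at h2 h3
      subst h2
      exact ⟨k', h, Or.inr h3.symm⟩
  · rintro ⟨k', h, h2 | h2⟩
    · exact Or.inl ⟨(k', neg l), ⟨h, rfl⟩, h2.symm⟩
    · exact Or.inr ⟨(k', neg l), ⟨h, rfl⟩, h2.symm⟩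

/-- The falsifying cube of a clause. -/
def fcube (c : Cl) : Cube := [neg c.1, neg c.2.1, neg c.2.2]

/-- The types of a mode. -/
def tys (i : ℕ) (p : List Cl × List Cl) : List (Key × List Cube) :=
  ([1, i], []) :: ([2, i], p.2.map fcube) :: ((p.1.zipIdx.map fun q => ([3, i, q.2], [])) ++
    (confs i p.1).map fun x => (x, [[]]))

/-- The sets of a mode. -/
def sps (i : ℕ) (p : List Cl × List Cl) : List (List Key) :=
  hS i :: uS i p.1 :: (occ p.1).map fun o => cS i p.1 o.1 o.2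

/-- The pairs, with a trivial one in front. -/
def ext (ps : List (List Cl × List Cl)) : List (List Cl × List Cl) := ([], []) :: ps

/-- The instance. -/
def mk (ps : List (List Cl × List Cl)) : Inst :=
  (([0], []) :: (ext ps).zipIdx.flatMap fun q => tys q.2 q.1, (ext ps).zipIdx.flatMap fun q =>
    sps q.2 q.1)

theorem mem_types {ps : List (List Cl × List Cl)} {z : Key} {B : List Cube} :
    (z, B) ∈ (mk ps).1 ↔ (z = [0] ∧ B = []) ∨ ∃ i φ ψ, (ext ps)[i]? = some (φ, ψ) ∧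
      ((z = [1, i] ∧ B = []) ∨ (z = [2, i] ∧ B = ψ.map fcube) ∨
      (∃ k < φ.length, z = [3, i, k] ∧ B = []) ∨ (z ∈ confs i φ ∧ B = [[]])) := by
  unfold mk
  simp only [List.mem_cons, Prod.mk.injEq, List.mem_flatMap]
  refine or_congr_right ?_
  constructor
  · rintro ⟨⟨⟨φ, ψ⟩, i⟩, h, h'⟩
    rw [List.mk_mem_zipIdx_iff_getElem?] at h
    refine ⟨i, φ, ψ, h, ?_⟩
    simp only [tys, List.mem_cons, Prod.mk.injEq, List.mem_append, List.mem_map] at h'
    rcases h' with h' | h' | ⟨⟨c, k⟩, h1, h2⟩ | ⟨x, h1, h2⟩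
    · exact Or.inl h'
    · exact Or.inr (Or.inl h')
    · rw [List.mk_mem_zipIdx_iff_getElem?] at h1
      exact Or.inr (Or.inr (Or.inl ⟨k, (List.getElem?_eq_some_iff.1 h1).1, h2.1.symm, h2.2.symm⟩))
    · rw [← h2.1, ← h2.2]
      exact Or.inr (Or.inr (Or.inr ⟨h1, rfl⟩))
  · rintro ⟨i, φ, ψ, h, h'⟩
    refine ⟨((φ, ψ), i), List.mk_mem_zipIdx_iff_getElem?.2 h, ?_⟩
    simp only [tys, List.mem_cons, Prod.mk.injEq, List.mem_append, List.mem_map]
    rcases h' with h' | h' | ⟨k, h1, h2, h3⟩ | ⟨h1, h2⟩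
    · exact Or.inl h'
    · exact Or.inr (Or.inl h')
    · exact Or.inr (Or.inr (Or.inl ⟨(φ[k], k),
        List.mk_mem_zipIdx_iff_getElem?.2 (List.getElem?_eq_getElem h1), h2.symm, h3.symm⟩))
    · exact Or.inr (Or.inr (Or.inr ⟨z, h1, rfl, h2.symm⟩))

theorem mem_sets {ps : List (List Cl × List Cl)} {X : List Key} :
    X ∈ (mk ps).2 ↔ ∃ i φ ψ, (ext ps)[i]? = some (φ, ψ) ∧
      (X = hS i ∨ X = uS i φ ∨ ∃ k l, (k, l) ∈ occ φ ∧ X = cS i φ k l) := by
  unfold mk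
  simp only [List.mem_flatMap]
  constructor
  · rintro ⟨⟨⟨φ, ψ⟩, i⟩, h, h'⟩
    rw [List.mk_mem_zipIdx_iff_getElem?] at h
    refine ⟨i, φ, ψ, h, ?_⟩
    simp only [sps, List.mem_cons, List.mem_map] at h'
    rcases h' with h' | h' | ⟨⟨k, l⟩, h1, h2⟩
    · exact Or.inl h'
    · exact Or.inr (Or.inl h')
    · exact Or.inr (Or.inr ⟨k, l, h1, h2.symm⟩)
  · rintro ⟨i, φ, ψ, h, h'⟩
    refine ⟨((φ, ψ), i), List.mk_mem_zipIdx_iff_getElem?.2 h, ?_⟩
    simp only [sps, List.mem_cons, List.mem_map]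
    rcases h' with h' | h' | ⟨k, l, h1, h2⟩
    · exact Or.inl h'
    · exact Or.inr (Or.inl h')
    · exact Or.inr (Or.inr ⟨(k, l), h1, h2.symm⟩)

theorem mem_keys {I : Inst} {z : Key} : z ∈ keys I ↔ ∃ B, (z, B) ∈ I.1 := by
  unfold keys
  rw [List.mem_map]
  constructor
  · rintro ⟨⟨z', B⟩, h, rfl⟩
    exact ⟨B, h⟩
  · rintro ⟨B, h⟩
    exact ⟨(z, B), h, rfl⟩

theorem mem_bad {I : Inst} {z : Key} {t : Cube} : t ∈ bad I z ↔ ∃ B, (z, B) ∈ I.1 ∧ t ∈ B := by
  unfold bad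
  simp only [List.mem_flatMap, List.mem_filter, decide_eq_true_eq]
  constructor
  · rintro ⟨⟨z', B⟩, ⟨h, rfl⟩, h'⟩
    exact ⟨B, h, h'⟩
  · rintro ⟨B, h, h'⟩
    exact ⟨(z, B), ⟨h, rfl⟩, h'⟩

theorem kD_ne {i k k' : ℕ} {l : Lit} {x : Key} (h : x.head? ≠ some 4) : x ≠ kD i k k' l := by
  rintro rfl
  simp [kD] at h

theorem not_mem_confs {i : ℕ} {φ : List Cl} {x : Key} (h : x.head? ≠ some 4) : x ∉ confs i φ := by
  rw [mem_confs]
  rintro ⟨k, k', l, _, _, h'⟩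
  exact kD_ne h h'

/-! ### Which sets meet -/

theorem hS_uS {i j : ℕ} {φ : List Cl} {x : Key} (h : x ∈ hS i) (h' : x ∈ uS j φ) : i = j := by
  rw [mem_hS] at h
  rw [mem_uS] at h'
  rcases h with rfl | rfl
  · rcases h' with h' | h' | ⟨_, _, h'⟩ | h'
    · simp at h'
    · simp at h'
    · simp at h'
    · exact absurd h' (not_mem_confs (by simp))
  · rcases h' with h' | h' | ⟨_, _, h'⟩ | h'
    · simpa using h'
    · simp at h'
    · simp at h'
    · exact absurd h' (not_mem_confs (by simp))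

theorem hS_cS {i j : ℕ} {φ : List Cl} {k : ℕ} {l : Lit} {x : Key} (h : x ∈ hS i)
    (h' : x ∈ cS j φ k l) : False := by
  rw [mem_hS] at h
  rw [mem_cS] at h'
  rcases h with rfl | rfl
  · rcases h' with h' | ⟨_, _, h' | h'⟩
    · simp at h'
    · simp [kD] at h'
    · simp [kD] at h'
  · rcases h' with h' | ⟨_, _, h' | h'⟩
    · simp at h'
    · simp [kD] at h'
    · simp [kD] at h'

theorem uS_snd {i : ℕ} {φ : List Cl} {x : Key} (h : x ∈ uS i φ) : x.getD 1 0 = i := by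
  rw [mem_uS] at h
  rcases h with rfl | rfl | ⟨_, _, rfl⟩ | h
  · rfl
  · rfl
  · rfl
  · obtain ⟨k, k', l, _, _, rfl⟩ := mem_confs.1 h
    rfl

theorem cS_snd {i : ℕ} {φ : List Cl} {k : ℕ} {l : Lit} {x : Key} (h : x ∈ cS i φ k l) :
    x.getD 1 0 = i := by
  rw [mem_cS] at h
  rcases h with rfl | ⟨_, _, rfl | rfl⟩ <;> rfl

theorem cS_cS {i : ℕ} {φ : List Cl} {k k' : ℕ} {l l' : Lit} {x : Key} (hk : k ≠ k')
    (h : x ∈ cS i φ k l) (h' : x ∈ cS i φ k' l') : l' = neg l := by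
  rw [mem_cS] at h h'
  rcases h with rfl | ⟨m, _, h⟩
  · rcases h' with h' | ⟨m', _, h' | h'⟩
    · simp only [List.cons.injEq, and_true, true_and] at h'
      exact absurd h' hk
    · simp [kD] at h'
    · simp [kD] at h'
  · rcases h' with h' | ⟨m', _, h'⟩
    · rcases h with h | h
      · rw [h'] at h; simp [kD] at h
      · rw [h'] at h; simp [kD] at h
    · rcases h with h | h <;> rcases h' with h' | h'
      · rw [h] at h'
        exact absurd (kD_inj h').2.1 hk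
      · rw [h] at h'
        have h2 := (kD_inj h').2.2.2
        rw [h2, neg_neg']
      · rw [h] at h'
        exact (kD_inj h').2.2.2.symm
      · rw [h] at h'
        exact absurd (kD_inj h').2.2.1 hk

theorem ext_zero (ps : List (List Cl × List Cl)) : (ext ps)[0]? = some ([], []) := rfl

/-- The instance has the required properties. -/
theorem good_mk (ps : List (List Cl × List Cl)) : Good (mk ps) := by
  constructor
  · intro X hX
    obtain ⟨i, φ, ψ, _, rfl | rfl | ⟨k, l, _, rfl⟩⟩ := mem_sets.1 hX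
    · simp [hS]
    · simp [uS]
    · simp [cS]
  · intro X hX z hz
    rw [mem_keys]
    obtain ⟨i, φ, ψ, hi, rfl | rfl | ⟨k, l, hkl, rfl⟩⟩ := mem_sets.1 hX
    · rw [mem_hS] at hz
      rcases hz with rfl | rfl
      · exact ⟨[], mem_types.2 (Or.inl ⟨rfl, rfl⟩)⟩
      · exact ⟨[], mem_types.2 (Or.inr ⟨i, φ, ψ, hi, Or.inl ⟨rfl, rfl⟩⟩)⟩
    · rw [mem_uS] at hz
      rcases hz with rfl | rfl | ⟨k, hk, rfl⟩ | hz
      · exact ⟨[], mem_types.2 (Or.inr ⟨i, φ, ψ, hi, Or.inl ⟨rfl, rfl⟩⟩)⟩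
      · exact ⟨_, mem_types.2 (Or.inr ⟨i, φ, ψ, hi, Or.inr (Or.inl ⟨rfl, rfl⟩)⟩)⟩
      · exact ⟨_, mem_types.2 (Or.inr ⟨i, φ, ψ, hi, Or.inr (Or.inr (Or.inl ⟨k, hk, rfl, rfl⟩))⟩)⟩
      · exact ⟨_, mem_types.2 (Or.inr ⟨i, φ, ψ, hi, Or.inr (Or.inr (Or.inr ⟨hz, rfl⟩))⟩)⟩
    · rw [mem_cS] at hz
      rcases hz with rfl | ⟨k', hk', rfl | rfl⟩
      · exact ⟨_, mem_types.2 (Or.inr ⟨i, φ, ψ, hi,
          Or.inr (Or.inr (Or.inl ⟨k, occ_lt hkl, rfl, rfl⟩))⟩)⟩
      · exact ⟨_, mem_types.2 (Or.inr ⟨i, φ, ψ, hi, Or.inr (Or.inr (Or.inr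
          ⟨mem_confs.2 ⟨k, k', l, hkl, hk', rfl⟩, rfl⟩))⟩)⟩
      · exact ⟨_, mem_types.2 (Or.inr ⟨i, φ, ψ, hi, Or.inr (Or.inr (Or.inr
          ⟨mem_confs.2 ⟨k', k, neg l, hk', by rw [neg_neg']; exact hkl, rfl⟩, rfl⟩))⟩)⟩
  · intro z hz
    obtain ⟨B, hB⟩ := mem_keys.1 hz
    rcases mem_types.1 hB with ⟨rfl, _⟩ | ⟨i, φ, ψ, hi, h⟩
    · exact ⟨hS 0, mem_sets.2 ⟨0, [], [], ext_zero ps, Or.inl rfl⟩, mem_hS.2 (Or.inl rfl)⟩
    · refine ⟨uS i φ, mem_sets.2 ⟨i, φ, ψ, hi, Or.inr (Or.inl rfl)⟩, mem_uS.2 ?_⟩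
      rcases h with ⟨h, _⟩ | ⟨h, _⟩ | ⟨k, hk, h, _⟩ | ⟨h, _⟩
      · exact Or.inl h
      · exact Or.inr (Or.inl h)
      · exact Or.inr (Or.inr (Or.inl ⟨k, hk, h⟩))
      · exact Or.inr (Or.inr (Or.inr h))
  · intro z _ t ht
    obtain ⟨B, hB, htB⟩ := mem_bad.1 ht
    rcases mem_types.1 hB with ⟨_, rfl⟩ | ⟨i, φ, ψ, hi, h⟩
    · simp at htB
    · rcases h with ⟨_, rfl⟩ | ⟨_, rfl⟩ | ⟨k, hk, _, rfl⟩ | ⟨_, rfl⟩
      · simp at htB
      · obtain ⟨c, _, rfl⟩ := List.mem_map.1 htB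
        simp [fcube]
      · simp at htB
      · rw [List.mem_singleton] at htB
        subst htB
        simp
  · simp [mk, keys]
  · intro F hF hsub hmeet
    by_cases hA : ∃ i, hS i ∈ F
    · obtain ⟨i, hi⟩ := hA
      by_cases hA1 : ∃ j φ, uS j φ ∈ F
      · obtain ⟨j, φ, hj⟩ := hA1
        obtain ⟨x, hx1, hx2⟩ := hmeet _ hi _ hj
        have hij := hS_uS hx1 hx2
        subst hij
        refine ⟨[1, i], fun X hX => ?_⟩
        obtain ⟨i', φ', ψ', _, rfl | rfl | ⟨k, l, _, rfl⟩⟩ := mem_sets.1 (hsub X hX)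
        · obtain ⟨y, hy1, hy2⟩ := hmeet _ hX _ hj
          rw [hS_uS hy1 hy2]
          exact mem_hS.2 (Or.inr rfl)
        · obtain ⟨y, hy1, hy2⟩ := hmeet _ hi _ hX
          rw [hS_uS hy1 hy2]
          exact mem_uS.2 (Or.inl rfl)
        · obtain ⟨y, hy1, hy2⟩ := hmeet _ hi _ hX
          exact (hS_cS hy1 hy2).elim
      · push Not at hA1
        refine ⟨[0], fun X hX => ?_⟩
        obtain ⟨i', φ', ψ', _, rfl | rfl | ⟨k, l, _, rfl⟩⟩ := mem_sets.1 (hsub X hX)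
        · exact mem_hS.2 (Or.inl rfl)
        · exact absurd hX (hA1 _ _)
        · obtain ⟨y, hy1, hy2⟩ := hmeet _ hi _ hX
          exact (hS_cS hy1 hy2).elim
    · push Not at hA
      by_cases hB : ∃ i φ ψ, (ext ps)[i]? = some (φ, ψ) ∧ ∃ k l, (k, l) ∈ occ φ ∧ cS i φ k l ∈ F
      · obtain ⟨i, φ, ψ, hi, k, l, hkl, hF1⟩ := hB
        have hcl : ∀ X ∈ F, X = uS i φ ∨ ∃ k' l', (k', l') ∈ occ φ ∧ X = cS i φ k' l' := by
          intro X hX
          obtain ⟨i', φ', ψ', hi', rfl | rfl | ⟨k', l', hkl', rfl⟩⟩ := mem_sets.1 (hsub X hX)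
          · exact absurd hX (hA _)
          · obtain ⟨y, hy1, hy2⟩ := hmeet _ hF1 _ hX
            have h1 := cS_snd hy1
            rw [uS_snd hy2] at h1
            subst h1
            rw [hi] at hi'
            simp only [Option.some.injEq, Prod.mk.injEq] at hi'
            rw [hi'.1]
            exact Or.inl rfl
          · obtain ⟨y, hy1, hy2⟩ := hmeet _ hF1 _ hX
            have h1 := cS_snd hy1
            rw [cS_snd hy2] at h1
            subst h1
            rw [hi] at hi'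
            simp only [Option.some.injEq, Prod.mk.injEq] at hi'
            rw [← hi'.1] at hkl' ⊢
            exact Or.inr ⟨k', l', hkl', rfl⟩
        by_cases hB1 : ∃ k' l', k' ≠ k ∧ (k', l') ∈ occ φ ∧ cS i φ k' l' ∈ F
        · obtain ⟨k', l', hkk, hkl', hF2⟩ := hB1
          have hl' : l' = neg l := by
            obtain ⟨y, hy1, hy2⟩ := hmeet _ hF1 _ hF2
            exact cS_cS hkk.symm hy1 hy2
          subst hl'
          refine ⟨kD i k k' l, fun X hX => ?_⟩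
          rcases hcl X hX with rfl | ⟨k2, l2, hkl2, rfl⟩
          · exact mem_uS.2 (Or.inr (Or.inr (Or.inr (mem_confs.2 ⟨k, k', l, hkl, hkl', rfl⟩))))
          · rw [mem_cS]
            right
            by_cases h1 : k2 = k
            · subst h1
              obtain ⟨y, hy1, hy2⟩ := hmeet _ hX _ hF2
              have h2 := cS_cS hkk.symm hy1 hy2
              have h3 : l = l2 := by rw [← neg_neg' l, h2, neg_neg']
              subst h3
              exact ⟨k', hkl', Or.inl rfl⟩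
            · obtain ⟨y, hy1, hy2⟩ := hmeet _ hF1 _ hX
              have h2 := cS_cS (Ne.symm h1) hy1 hy2
              by_cases h3 : k2 = k'
              · subst h3
                subst h2
                exact ⟨k, by rw [neg_neg']; exact hkl, Or.inr (by rw [neg_neg'])⟩
              · exfalso
                obtain ⟨y, hy1, hy2⟩ := hmeet _ hF2 _ hX
                have h4 := cS_cS (Ne.symm h3) hy1 hy2
                rw [h2, neg_neg'] at h4
                exact neg_ne l h4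
        · push Not at hB1
          refine ⟨[3, i, k], fun X hX => ?_⟩
          rcases hcl X hX with rfl | ⟨k', l', hkl', rfl⟩
          · exact mem_uS.2 (Or.inr (Or.inr (Or.inl ⟨k, occ_lt hkl, rfl⟩)))
          · have : k' = k := by
              by_contra h
              exact hB1 k' l' h hkl' hX
            rw [this]
            exact mem_cS.2 (Or.inl rfl)
      · push Not at hB
        have hall : ∀ X ∈ F, ∃ i φ, X = uS i φ := by
          intro X hX
          obtain ⟨i', φ', ψ', hi', rfl | rfl | ⟨k', l', hkl', rfl⟩⟩ := mem_sets.1 (hsub X hX)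
          · exact absurd hX (hA _)
          · exact ⟨_, _, rfl⟩
          · exact absurd hX (hB i' φ' ψ' hi' k' l' hkl')
        obtain ⟨X, hX⟩ := hF
        obtain ⟨i, φ, rfl⟩ := hall X hX
        refine ⟨[1, i], fun Y hY => ?_⟩
        obtain ⟨j, φ', rfl⟩ := hall Y hY
        obtain ⟨y, hy1, hy2⟩ := hmeet _ hX _ hY
        have h1 := uS_snd hy1
        rw [uS_snd hy2] at h1
        rw [h1]
        exact mem_uS.2 (Or.inl rfl)

end Pool.Agent.Y650.TH
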